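import Mathlib

set_option autoImplicit false

namespace Pool.Agent.Lib.MP_814f17_an

open Finset Nat

lemma binom_desc (m q : ℕ) (y z : ℂ) :
    ∑ b ∈ range (m + 1), (m.choose b : ℂ) * y ^ b * z ^ (m - b) * (b.descFactorial q : ℂ) =
      (m.descFactorial q : ℂ) * y ^ q * (y + z) ^ (m - q) := by
  rcases lt_or_ge m q with h | h
  · rw [Nat.descFactorial_of_lt h, Finset.sum_eq_zero]
    · simp
    · intro b hb
      rw [Nat.descFactorial_of_lt (by have := Finset.mem_range.mp hb; omega)]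
      simp
  · obtain ⟨m', rfl⟩ := Nat.exists_eq_add_of_le h
    rw [add_assoc, Finset.sum_range_add, Finset.sum_eq_zero, zero_add, add_tsub_cancel_left,
      add_pow, Finset.mul_sum]
    · refine Finset.sum_congr rfl fun b _ => ?_
      have h1 : (q + m').choose (q + b) * (q + b).descFactorial q =
          (q + m').descFactorial q * m'.choose b := by
        rw [Nat.descFactorial_eq_factorial_mul_choose, Nat.descFactorial_eq_factorial_mul_choose,
          mul_left_comm, Nat.choose_mul (Nat.le_add_right q b), add_tsub_cancel_left,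
          add_tsub_cancel_left, mul_assoc]
      have h2 : (((q + m').choose (q + b) : ℕ) : ℂ) * ((q + b).descFactorial q : ℕ) =
          ((q + m').descFactorial q : ℕ) * (m'.choose b : ℕ) := by exact_mod_cast h1
      rw [add_tsub_add_eq_tsub_left, pow_add]
      linear_combination y ^ q * y ^ b * z ^ (m' - b) * h2
    · intro b hb
      rw [Nat.descFactorial_of_lt (Finset.mem_range.mp hb)]
      simp

lemma choose_mul_desc (n a q : ℕ) :
    n.choose a * (n - a).descFactorial q = n.descFactorial q * (n - q).choose a := by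
  have h1 := Nat.choose_mul (n := n) (Nat.le_add_right a q)
  have h2 := Nat.choose_mul (n := n) (Nat.le_add_left q a)
  rw [add_tsub_cancel_left] at h1
  rw [add_tsub_cancel_right, ← Nat.choose_symm_add] at h2
  rw [Nat.descFactorial_eq_factorial_mul_choose, Nat.descFactorial_eq_factorial_mul_choose,
    mul_left_comm, ← h1, h2, mul_assoc]

lemma multi_eq {n a b : ℕ} (ha : a ∈ range (n + 1)) (hb : b ∈ range (n + 1 - a)) :
    ((n ! : ℂ) / ((a ! : ℂ) * (b ! : ℂ) * ((n - a - b)! : ℂ))) =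
      (n.choose a : ℂ) * ((n - a).choose b : ℂ) := by
  have ha' : a ≤ n := by have := Finset.mem_range.mp ha; omega
  have hb' : b ≤ n - a := by have := Finset.mem_range.mp hb; omega
  rw [Nat.cast_choose ℂ ha', Nat.cast_choose ℂ hb']
  have h1 : (a ! : ℂ) ≠ 0 := by exact_mod_cast a.factorial_ne_zero
  have h2 : (b ! : ℂ) ≠ 0 := by exact_mod_cast b.factorial_ne_zero
  have h3 : ((n - a)! : ℂ) ≠ 0 := by exact_mod_cast (n - a).factorial_ne_zero
  have h4 : ((n - a - b)! : ℂ) ≠ 0 := by exact_mod_cast (n - a - b).factorial_ne_zero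
  field_simp

lemma trinom_desc (n p q : ℕ) (x y : ℂ) :
    ∑ a ∈ range (n + 1), ∑ b ∈ range (n + 1 - a),
      ((n ! : ℂ) / ((a ! : ℂ) * (b ! : ℂ) * ((n - a - b)! : ℂ))) * x ^ a * y ^ b *
        (1 - x - y) ^ (n - a - b) * ((a.descFactorial p : ℂ) * (b.descFactorial q : ℂ)) =
      (n.descFactorial (p + q) : ℂ) * x ^ p * y ^ q := by
  have h1 : ∀ a ∈ range (n + 1), ∑ b ∈ range (n + 1 - a),
      ((n ! : ℂ) / ((a ! : ℂ) * (b ! : ℂ) * ((n - a - b)! : ℂ))) * x ^ a * y ^ b *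
        (1 - x - y) ^ (n - a - b) * ((a.descFactorial p : ℂ) * (b.descFactorial q : ℂ)) =
      (n.descFactorial q : ℂ) * y ^ q *
        (((n - q).choose a : ℂ) * x ^ a * (1 - x) ^ (n - q - a) * (a.descFactorial p : ℂ)) := by
    intro a ha
    have ha' : a ≤ n := by have := Finset.mem_range.mp ha; omega
    have h2 := binom_desc (n - a) q y (1 - x - y)
    have h3 : ((n.choose a : ℕ) : ℂ) * ((n - a).descFactorial q : ℕ) =
        (n.descFactorial q : ℕ) * ((n - q).choose a : ℕ) := by exact_mod_cast choose_mul_desc n a q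
    have h4 : n + 1 - a = n - a + 1 := by omega
    have h5 : y + (1 - x - y) = 1 - x := by ring
    have h6 : n - a - q = n - q - a := by omega
    rw [h5, h6] at h2
    rw [Finset.sum_congr rfl (g := fun b => ((n.choose a : ℂ) * x ^ a * (a.descFactorial p : ℂ)) *
      (((n - a).choose b : ℂ) * y ^ b * (1 - x - y) ^ (n - a - b) * (b.descFactorial q : ℂ)))
      (fun b hb => by rw [multi_eq ha hb]; ring), ← Finset.mul_sum, h4, h2]
    linear_combination x ^ a * (a.descFactorial p : ℂ) * y ^ q * (1 - x) ^ (n - q - a) * h3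
  rw [Finset.sum_congr rfl h1, ← Finset.mul_sum,
    ← Finset.sum_subset (s₁ := range (n - q + 1)) (Finset.range_mono (by omega)), binom_desc]
  · have h2 : (n - q).descFactorial p * n.descFactorial q = n.descFactorial (p + q) := by
      have := Nat.descFactorial_mul_descFactorial (n := n) (Nat.le_add_left q p)
      rwa [add_tsub_cancel_right] at this
    rw [← h2]
    push_cast
    simp
    ring
  · intro a _ ha
    rw [Nat.choose_eq_zero_of_lt (by simp at ha; omega)]
    simp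

lemma pow_eq_sum_stirling (x k : ℕ) :
    x ^ k = ∑ p ∈ range (k + 1), stirlingSecond k p * x.descFactorial p := by
  induction k with
  | zero => simp
  | succ k ih =>
    have h1 : ∀ p, x.descFactorial p * x = x.descFactorial (p + 1) + p * x.descFactorial p := by
      intro p
      rw [Nat.descFactorial_succ]
      rcases lt_or_ge x p with h | h
      · simp [Nat.descFactorial_of_lt h]
      · rw [← add_mul, Nat.sub_add_cancel h, mul_comm]
    rw [pow_succ, ih, Finset.sum_mul, Finset.sum_range_succ' _ (k + 1)]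
    simp only [stirlingSecond_succ_succ, stirlingSecond_succ_zero, zero_mul, add_zero, add_mul,
      mul_assoc, h1, mul_add, Finset.sum_add_distrib]
    rw [add_comm]
    congr 1
    rw [Finset.sum_range_succ' _ k, ← Finset.sum_add_distrib, Finset.sum_range_succ _ k,
      stirlingSecond_eq_zero_of_lt (Nat.lt_succ_self k)]
    simp only [zero_mul, mul_zero, add_zero]
    refine Finset.sum_congr rfl fun p _ => ?_
    ring

/-- The real number k(k-1)/2. -/
noncomputable def c2 (k : ℕ) : ℝ := (k : ℝ) * ((k : ℝ) - 1) / 2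

lemma c2_eq (k : ℕ) : c2 k = (k.choose 2 : ℝ) := by
  rw [Nat.cast_choose_two, c2]

lemma c2_nonneg (k : ℕ) : 0 ≤ c2 k := by
  rw [c2_eq]
  positivity

lemma c2_succ (k : ℕ) : c2 (k + 1) = c2 k + k := by
  unfold c2
  push_cast
  ring

/-- The nonnegative coefficients of the remainder. -/
noncomputable def rc (k j p q : ℕ) : ℝ :=
  (stirlingSecond k p : ℝ) * (stirlingSecond j q : ℝ) - (if p = k then if q = j then 1 else 0 else 0)
    - (if p = k - 1 then if q = j then c2 k else 0 else 0)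
    - (if p = k then if q = j - 1 then c2 j else 0 else 0)

lemma stirling_pred (k : ℕ) (hk : k - 1 ≠ k) : (stirlingSecond k (k - 1) : ℝ) = c2 k := by
  obtain ⟨k, rfl⟩ : ∃ m, k = m + 1 := ⟨k - 1, by omega⟩
  rw [add_tsub_cancel_right, stirlingSecond_succ_self_left, c2_eq]

lemma c2_of_pred {k : ℕ} (hk : k = k - 1) : c2 k = 0 := by
  have : k = 0 := by omega
  simp [this, c2]

lemma rc_nonneg (k j p q : ℕ) : 0 ≤ rc k j p q := by
  unfold rc
  by_cases hp : p = k
  · subst hp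
    by_cases hq : q = j
    · subst hq
      simp only [if_true, stirlingSecond_self]
      split_ifs with h1 h2 h2
      · simp [c2_of_pred h1, c2_of_pred h2]
      · simp [c2_of_pred h1]
      · simp [c2_of_pred h2]
      · simp
    · simp only [if_true, hq, if_false, stirlingSecond_self, ite_self]
      split_ifs with h1
      · subst h1
        rw [stirling_pred j hq]
        simp
      · simp
  · simp only [hp, if_false]
    split_ifs with h1 h2
    · subst h1 h2
      rw [stirling_pred k hp, stirlingSecond_self]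
      simp
    · simp only [sub_zero]
      positivity
    · simp only [sub_zero]
      positivity

lemma sum_rc {E : Type} [AddCommGroup E] [Module ℝ E] (k j : ℕ) (V : ℕ → ℕ → E) :
    ∑ p ∈ range (k + 1), ∑ q ∈ range (j + 1), rc k j p q • V p q =
      ∑ p ∈ range (k + 1), ∑ q ∈ range (j + 1),
        ((stirlingSecond k p : ℝ) * (stirlingSecond j q : ℝ)) • V p q
        - V k j - c2 k • V (k - 1) j - c2 j • V k (j - 1) := by
  have hk : k - 1 < k + 1 := by omega
  have hj : j - 1 < j + 1 := by omega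
  simp [rc, sub_smul, Finset.sum_sub_distrib, ite_smul, Finset.sum_ite_irrel, hk, hj]

/-- Normalised falling factorials. -/
noncomputable def uf (n k : ℕ) : ℝ := (n.descFactorial k : ℝ) / (n : ℝ) ^ k

lemma uf_nonneg (n k : ℕ) : 0 ≤ uf n k := by unfold uf; positivity

lemma uf_le_one {n : ℕ} (hn : 1 ≤ n) (k : ℕ) : uf n k ≤ 1 := by
  unfold uf
  rw [div_le_one (by positivity)]
  exact_mod_cast Nat.descFactorial_le_pow n k

lemma uf_succ {n : ℕ} (hn : 1 ≤ n) (k : ℕ) : uf n (k + 1) = uf n k - uf n k * (k / n) := by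
  unfold uf
  have : (n : ℝ) ≠ 0 := by positivity
  rw [Nat.descFactorial_succ]
  rcases lt_or_ge n k with h | h
  · simp [Nat.descFactorial_of_lt h]
  · push_cast [h]
    field_simp
    ring

lemma uf_ge {n : ℕ} (hn : 1 ≤ n) (k : ℕ) : 1 - c2 k / n ≤ uf n k := by
  induction k with
  | zero => simp [c2, uf]
  | succ k ih =>
    rw [uf_succ hn, c2_succ, add_div]
    have h1 : uf n k * (k / n) ≤ k / n := mul_le_of_le_one_left (by positivity) (uf_le_one hn k)
    linarith

lemma uf_le {n : ℕ} (hn : 1 ≤ n) (k : ℕ) : uf n k ≤ 1 - c2 k / n + (c2 k / n) ^ 2 := by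
  induction k with
  | zero => simp [c2, uf]
  | succ k ih =>
    rw [uf_succ hn, c2_succ, add_div]
    have h0 : (0 : ℝ) ≤ k / n := by positivity
    have h1 := mul_le_mul_of_nonneg_right (uf_ge hn k) h0
    have h2 : 0 ≤ c2 k / n := div_nonneg (c2_nonneg k) (by positivity)
    nlinarith [mul_nonneg h0 h2, sq_nonneg ((k : ℝ) / n)]

/-- The Bernstein operator applied to an array of node values. -/
noncomputable def bop (n : ℕ) (g : ℕ → ℕ → ℂ) (x y : ℂ) : ℂ :=
  ∑ a ∈ range (n + 1), ∑ b ∈ range (n + 1 - a),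
    ((n ! : ℂ) / ((a ! : ℂ) * (b ! : ℂ) * ((n - a - b)! : ℂ))) * x ^ a * y ^ b *
      (1 - x - y) ^ (n - a - b) * g a b

lemma bop_mono (n k j : ℕ) (x y : ℂ) :
    bop n (fun a b => ((a : ℂ) / n) ^ k * ((b : ℂ) / n) ^ j) x y =
      ∑ p ∈ range (k + 1), ∑ q ∈ range (j + 1),
        ((stirlingSecond k p : ℝ) * (stirlingSecond j q : ℝ)) •
          ((((n.descFactorial (p + q) : ℝ) / (n : ℝ) ^ (k + j) : ℝ) : ℂ) * x ^ p * y ^ q) := by
  have h1 : ∀ a b : ℕ, ((a : ℂ) / n) ^ k * ((b : ℂ) / n) ^ j =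
      ∑ p ∈ range (k + 1), ∑ q ∈ range (j + 1),
        ((stirlingSecond k p : ℂ) * (stirlingSecond j q : ℂ) / (n : ℂ) ^ (k + j)) *
          ((a.descFactorial p : ℂ) * (b.descFactorial q : ℂ)) := by
    intro a b
    have ha : (a : ℂ) ^ k = ∑ p ∈ range (k + 1), (stirlingSecond k p : ℂ) * a.descFactorial p := by
      exact_mod_cast pow_eq_sum_stirling a k
    have hb : (b : ℂ) ^ j = ∑ q ∈ range (j + 1), (stirlingSecond j q : ℂ) * b.descFactorial q := by
      exact_mod_cast pow_eq_sum_stirling b j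
    rw [div_pow, div_pow, _root_.div_mul_div_comm, ← pow_add, ha, hb, Finset.sum_mul_sum, Finset.sum_div]
    refine Finset.sum_congr rfl fun p _ => ?_
    rw [Finset.sum_div]
    refine Finset.sum_congr rfl fun q _ => ?_
    ring
  have h2 : ∀ p q : ℕ, ((stirlingSecond k p : ℝ) * (stirlingSecond j q : ℝ)) •
      ((((n.descFactorial (p + q) : ℝ) / (n : ℝ) ^ (k + j) : ℝ) : ℂ) * x ^ p * y ^ q) =
      ∑ a ∈ range (n + 1), ∑ b ∈ range (n + 1 - a),
      ((n ! : ℂ) / ((a ! : ℂ) * (b ! : ℂ) * ((n - a - b)! : ℂ))) * x ^ a * y ^ b *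
        (1 - x - y) ^ (n - a - b) *
        (((stirlingSecond k p : ℂ) * (stirlingSecond j q : ℂ) / (n : ℂ) ^ (k + j)) *
          ((a.descFactorial p : ℂ) * (b.descFactorial q : ℂ))) := by
    intro p q
    have h3 := trinom_desc n p q x y
    simp only [mul_left_comm _ ((stirlingSecond k p : ℂ) * (stirlingSecond j q : ℂ) /
      (n : ℂ) ^ (k + j)), ← Finset.mul_sum]
    rw [h3, Complex.real_smul]
    push_cast
    ring
  simp only [bop, h1, h2, Finset.mul_sum]
  rw [Finset.sum_congr rfl (fun a _ => Finset.sum_comm), Finset.sum_comm]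
  refine Finset.sum_congr rfl fun p _ => ?_
  rw [Finset.sum_congr rfl (fun a _ => Finset.sum_comm), Finset.sum_comm]

lemma c2_add (k j : ℕ) : c2 (k + j) = c2 k + c2 j + k * j := by
  unfold c2
  push_cast
  ring

lemma c2_pred_le (N : ℕ) : c2 (N - 1) ≤ c2 N := by
  rcases N with _ | N
  · simp
  · rw [add_tsub_cancel_right, c2_succ]
    have : (0 : ℝ) ≤ N := by positivity
    linarith

lemma c2_mul_desc {n : ℕ} (hn : 1 ≤ n) (k j : ℕ) :
    c2 k * ((n.descFactorial (k - 1 + j) : ℝ) / (n : ℝ) ^ (k + j)) =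
      c2 k / n * uf n (k + j - 1) := by
  have : (n : ℝ) ≠ 0 := by positivity
  rcases k with _ | k
  · simp [c2]
  · have h1 : k + 1 + j - 1 = k + j := by omega
    have h2 : k + 1 + j = k + j + 1 := by omega
    rw [h1, h2, add_tsub_cancel_right, uf, pow_succ]
    field_simp

lemma c2_mul_desc2 {n : ℕ} (hn : 1 ≤ n) (k j : ℕ) :
    c2 k * ((n.descFactorial (k - 1) : ℝ) * (n.descFactorial j : ℝ) / (n : ℝ) ^ (k + j)) =
      c2 k / n * (uf n (k - 1) * uf n j) := by
  have : (n : ℝ) ≠ 0 := by positivity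
  rcases k with _ | k
  · simp [c2]
  · have h2 : k + 1 + j = k + j + 1 := by omega
    rw [h2, add_tsub_cancel_right, uf, uf, pow_succ, pow_add]
    field_simp

lemma rest_le {n : ℕ} (hn : 1 ≤ n) (k j : ℕ) :
    ∑ p ∈ range (k + 1), ∑ q ∈ range (j + 1), rc k j p q •
      ((n.descFactorial p : ℝ) * (n.descFactorial q : ℝ) / (n : ℝ) ^ (k + j)) ≤
      (c2 (k + j) / n) ^ 2 := by
  have hn0 : (0 : ℝ) < n := by positivity
  rw [sum_rc k j (fun p q => (n.descFactorial p : ℝ) * (n.descFactorial q : ℝ) / (n : ℝ) ^ (k + j))]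
  have h1 : ∑ p ∈ range (k + 1), ∑ q ∈ range (j + 1),
      ((stirlingSecond k p : ℝ) * (stirlingSecond j q : ℝ)) •
        ((n.descFactorial p : ℝ) * (n.descFactorial q : ℝ) / (n : ℝ) ^ (k + j)) = 1 := by
    have ha : (n : ℝ) ^ k = ∑ p ∈ range (k + 1), (stirlingSecond k p : ℝ) * n.descFactorial p := by
      exact_mod_cast pow_eq_sum_stirling n k
    have hb : (n : ℝ) ^ j = ∑ q ∈ range (j + 1), (stirlingSecond j q : ℝ) * n.descFactorial q := by
      exact_mod_cast pow_eq_sum_stirling n j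
    have h2 : (1 : ℝ) = (n : ℝ) ^ k * (n : ℝ) ^ j / (n : ℝ) ^ (k + j) := by
      rw [pow_add]
      field_simp
    rw [h2, ha, hb, Finset.sum_mul_sum, Finset.sum_div]
    refine Finset.sum_congr rfl fun p _ => ?_
    rw [Finset.sum_div]
    refine Finset.sum_congr rfl fun q _ => ?_
    rw [smul_eq_mul]
    ring
  have h2 : (n.descFactorial k : ℝ) * (n.descFactorial j : ℝ) / (n : ℝ) ^ (k + j) =
      uf n k * uf n j := by
    rw [uf, uf, pow_add, _root_.div_mul_div_comm]
  have h3 := c2_mul_desc2 hn j k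
  rw [add_comm j k, mul_comm (n.descFactorial (j - 1) : ℝ)] at h3
  rw [h1, h2, smul_eq_mul, smul_eq_mul, c2_mul_desc2 hn, h3]
  have hprod : ∀ a b : ℕ, 1 - c2 a / n - c2 b / n ≤ uf n a * uf n b := by
    intro a b
    have e1 := uf_ge hn a
    have e2 := uf_ge hn b
    nlinarith [mul_nonneg (sub_nonneg.mpr (uf_le_one hn a)) (sub_nonneg.mpr (uf_le_one hn b))]
  have hA : 0 ≤ c2 k / n := div_nonneg (c2_nonneg k) hn0.le
  have hB : 0 ≤ c2 j / n := div_nonneg (c2_nonneg j) hn0.le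
  have hk' : c2 (k - 1) / n ≤ c2 k / n := div_le_div_of_nonneg_right (c2_pred_le k) hn0.le
  have hj' : c2 (j - 1) / n ≤ c2 j / n := div_le_div_of_nonneg_right (c2_pred_le j) hn0.le
  have e1 := hprod k j
  have e2 := mul_le_mul_of_nonneg_left
    (show 1 - c2 k / n - c2 j / n ≤ uf n (k - 1) * uf n j by linarith [hprod (k - 1) j]) hA
  have e3 := mul_le_mul_of_nonneg_left
    (show 1 - c2 k / n - c2 j / n ≤ uf n (j - 1) * uf n k by linarith [hprod (j - 1) k]) hB
  have e4 : c2 k / n + c2 j / n ≤ c2 (k + j) / n := by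
    rw [← add_div, c2_add]
    refine div_le_div_of_nonneg_right ?_ hn0.le
    have : (0 : ℝ) ≤ k * j := by positivity
    linarith
  have e5 : (c2 k / n + c2 j / n) ^ 2 ≤ (c2 (k + j) / n) ^ 2 := by gcongr
  nlinarith

lemma vor_mono (n k j : ℕ) (x y : ℂ) :
    (1 / (2 * (n : ℂ))) * (x * (1 - x) * ((k : ℂ) * (((k - 1 : ℕ) : ℂ) * x ^ (k - 1 - 1)) * y ^ j)
      - 2 * x * y * ((k : ℂ) * x ^ (k - 1) * ((j : ℂ) * y ^ (j - 1)))
      + y * (1 - y) * (x ^ k * ((j : ℂ) * (((j - 1 : ℕ) : ℂ) * y ^ (j - 1 - 1))))) =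
    ((c2 k / n : ℝ) : ℂ) * (x ^ (k - 1) * y ^ j) + ((c2 j / n : ℝ) : ℂ) * (x ^ k * y ^ (j - 1))
      - ((c2 (k + j) / n : ℝ) : ℂ) * (x ^ k * y ^ j) := by
  unfold c2
  rcases k with _ | _ | k <;> rcases j with _ | _ | j <;> simp <;> ring

theorem mono_bound {n : ℕ} (hn : 1 ≤ n) (k j : ℕ) {x y : ℂ} {r s : ℝ} (hr : 1 ≤ r) (hs : 1 ≤ s)
    (hx : ‖x‖ ≤ r) (hy : ‖y‖ ≤ s) :
    ‖bop n (fun a b => ((a : ℂ) / n) ^ k * ((b : ℂ) / n) ^ j) x y - x ^ k * y ^ j -
      (1 / (2 * (n : ℂ))) *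
        (x * (1 - x) * ((k : ℂ) * (((k - 1 : ℕ) : ℂ) * x ^ (k - 1 - 1)) * y ^ j)
        - 2 * x * y * ((k : ℂ) * x ^ (k - 1) * ((j : ℂ) * y ^ (j - 1)))
        + y * (1 - y) * (x ^ k * ((j : ℂ) * (((j - 1 : ℕ) : ℂ) * y ^ (j - 1 - 1)))))‖ ≤
      (((k : ℝ) + 1) ^ 4 * r ^ k) * (((j : ℝ) + 1) ^ 4 * s ^ j) / (n : ℝ) ^ 2 := by
  have hn0 : (0 : ℝ) < n := by positivity
  have hW : ∀ p q, p ≤ k → q ≤ j → ‖x ^ p * y ^ q‖ ≤ r ^ k * s ^ j := by
    intro p q hp hq
    rw [norm_mul, norm_pow, norm_pow]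
    exact mul_le_mul ((pow_le_pow_left₀ (norm_nonneg _) hx p).trans (pow_le_pow_right₀ hr hp))
      ((pow_le_pow_left₀ (norm_nonneg _) hy q).trans (pow_le_pow_right₀ hs hq))
      (by positivity) (by positivity)
  have hW0 : 0 ≤ r ^ k * s ^ j := by positivity
  set V : ℕ → ℕ → ℂ := fun p q =>
    ((((n.descFactorial (p + q) : ℝ) / (n : ℝ) ^ (k + j) : ℝ) : ℂ) * x ^ p * y ^ q) with hV
  have hR : ‖∑ p ∈ range (k + 1), ∑ q ∈ range (j + 1), rc k j p q • V p q‖ ≤
      (c2 (k + j) / n) ^ 2 * (r ^ k * s ^ j) := by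
    refine le_trans ?_ (mul_le_mul_of_nonneg_right (rest_le hn k j) hW0)
    rw [Finset.sum_mul]
    refine norm_sum_le_of_le _ fun p hp => ?_
    rw [Finset.sum_mul]
    refine norm_sum_le_of_le _ fun q hq => ?_
    rw [norm_smul, Real.norm_of_nonneg (rc_nonneg k j p q), smul_eq_mul, mul_assoc]
    refine mul_le_mul_of_nonneg_left ?_ (rc_nonneg k j p q)
    simp only [hV]
    rw [mul_assoc, norm_mul, Complex.norm_real, Real.norm_of_nonneg (by positivity)]
    refine mul_le_mul (div_le_div_of_nonneg_right ?_ (by positivity))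
      (hW p q (by have := Finset.mem_range.mp hp; omega) (by have := Finset.mem_range.mp hq; omega))
      (norm_nonneg _) (by positivity)
    have h2 : (n - q).descFactorial p * n.descFactorial q = n.descFactorial (p + q) := by
      have := Nat.descFactorial_mul_descFactorial (n := n) (Nat.le_add_left q p)
      rwa [add_tsub_cancel_right] at this
    rw [← h2]
    exact_mod_cast Nat.mul_le_mul_right _ (Nat.descFactorial_le p (Nat.sub_le n q))
  have e1 : V k j = (uf n (k + j) : ℂ) * (x ^ k * y ^ j) := by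
    simp only [hV, uf, mul_assoc]
  have e2 : c2 k • V (k - 1) j = ((c2 k / n * uf n (k + j - 1) : ℝ) : ℂ) * (x ^ (k - 1) * y ^ j) := by
    simp only [hV]
    rw [← c2_mul_desc hn, Complex.real_smul]
    push_cast
    ring
  have e3 : c2 j • V k (j - 1) = ((c2 j / n * uf n (k + j - 1) : ℝ) : ℂ) * (x ^ k * y ^ (j - 1)) := by
    simp only [hV]
    rw [add_comm k j, ← c2_mul_desc hn, Complex.real_smul, add_comm k (j - 1)]
    push_cast
    ring
  have e4 := sum_rc k j V
  rw [e1, e2, e3] at e4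
  have key : bop n (fun a b => ((a : ℂ) / n) ^ k * ((b : ℂ) / n) ^ j) x y - x ^ k * y ^ j -
      (((c2 k / n : ℝ) : ℂ) * (x ^ (k - 1) * y ^ j) + ((c2 j / n : ℝ) : ℂ) * (x ^ k * y ^ (j - 1))
      - ((c2 (k + j) / n : ℝ) : ℂ) * (x ^ k * y ^ j)) =
      ∑ p ∈ range (k + 1), ∑ q ∈ range (j + 1), rc k j p q • V p q
      + ((uf n (k + j) - 1 + c2 (k + j) / n : ℝ) : ℂ) * (x ^ k * y ^ j)
      - ((c2 k / n * (1 - uf n (k + j - 1)) : ℝ) : ℂ) * (x ^ (k - 1) * y ^ j)
      - ((c2 j / n * (1 - uf n (k + j - 1)) : ℝ) : ℂ) * (x ^ k * y ^ (j - 1)) := by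
    have e6 : bop n (fun a b => ((a : ℂ) / n) ^ k * ((b : ℂ) / n) ^ j) x y =
        ∑ p ∈ range (k + 1), ∑ q ∈ range (j + 1),
          ((stirlingSecond k p : ℝ) * (stirlingSecond j q : ℝ)) • V p q := bop_mono n k j x y
    rw [e4, e6]
    push_cast
    ring
  rw [vor_mono, key]
  have hA : 0 ≤ c2 k / n := div_nonneg (c2_nonneg k) hn0.le
  have hB : 0 ≤ c2 j / n := div_nonneg (c2_nonneg j) hn0.le
  have hu1 : 0 ≤ 1 - uf n (k + j - 1) := sub_nonneg.mpr (uf_le_one hn _)
  have hu2 : 1 - uf n (k + j - 1) ≤ c2 (k + j) / n := by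
    have := uf_ge hn (k + j - 1)
    have := div_le_div_of_nonneg_right (c2_pred_le (k + j)) hn0.le
    linarith
  have e5 : c2 k / n + c2 j / n ≤ c2 (k + j) / n := by
    rw [← add_div, c2_add]
    refine div_le_div_of_nonneg_right ?_ hn0.le
    have : (0 : ℝ) ≤ k * j := by positivity
    linarith
  have b1 : ‖((uf n (k + j) - 1 + c2 (k + j) / n : ℝ) : ℂ) * (x ^ k * y ^ j)‖ ≤
      (c2 (k + j) / n) ^ 2 * (r ^ k * s ^ j) := by
    rw [norm_mul, Complex.norm_real, Real.norm_of_nonneg (by linarith [uf_ge hn (k + j)])]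
    exact mul_le_mul (by linarith [uf_le hn (k + j)]) (hW k j le_rfl le_rfl) (norm_nonneg _)
      (by positivity)
  have b2 : ‖((c2 k / n * (1 - uf n (k + j - 1)) : ℝ) : ℂ) * (x ^ (k - 1) * y ^ j)‖ ≤
      (c2 k / n * (c2 (k + j) / n)) * (r ^ k * s ^ j) := by
    rw [norm_mul, Complex.norm_real, Real.norm_of_nonneg (mul_nonneg hA hu1)]
    exact mul_le_mul (mul_le_mul_of_nonneg_left hu2 hA) (hW _ j (Nat.sub_le _ _) le_rfl)
      (norm_nonneg _) (mul_nonneg hA (hu1.trans hu2))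
  have b3 : ‖((c2 j / n * (1 - uf n (k + j - 1)) : ℝ) : ℂ) * (x ^ k * y ^ (j - 1))‖ ≤
      (c2 j / n * (c2 (k + j) / n)) * (r ^ k * s ^ j) := by
    rw [norm_mul, Complex.norm_real, Real.norm_of_nonneg (mul_nonneg hB hu1)]
    exact mul_le_mul (mul_le_mul_of_nonneg_left hu2 hB) (hW k _ le_rfl (Nat.sub_le _ _))
      (norm_nonneg _) (mul_nonneg hB (hu1.trans hu2))
  have b4 : c2 k / n * (c2 (k + j) / n) + c2 j / n * (c2 (k + j) / n) ≤ (c2 (k + j) / n) ^ 2 := by
    rw [← add_mul, sq]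
    exact mul_le_mul_of_nonneg_right e5 (hu1.trans hu2)
  have b5 : 3 * (c2 (k + j) / n) ^ 2 ≤ ((k : ℝ) + 1) ^ 4 * ((j : ℝ) + 1) ^ 4 / (n : ℝ) ^ 2 := by
    rw [div_pow, ← mul_div_assoc]
    refine div_le_div_of_nonneg_right ?_ (by positivity)
    have hk : (0 : ℝ) ≤ k := by positivity
    have hj : (0 : ℝ) ≤ j := by positivity
    have h1 : c2 (k + j) ≤ (((k : ℝ) + 1) * ((j : ℝ) + 1)) ^ 2 / 2 := by
      have h2 : (k : ℝ) + j ≤ ((k : ℝ) + 1) * ((j : ℝ) + 1) := by nlinarith [mul_nonneg hk hj]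
      have h3 : ((k : ℝ) + j) ^ 2 ≤ (((k : ℝ) + 1) * ((j : ℝ) + 1)) ^ 2 := by gcongr
      unfold c2
      push_cast
      nlinarith
    have h4 : c2 (k + j) ^ 2 ≤ ((((k : ℝ) + 1) * ((j : ℝ) + 1)) ^ 2 / 2) ^ 2 :=
      pow_le_pow_left₀ (c2_nonneg _) h1 2
    have h5 : 0 ≤ ((k : ℝ) + 1) ^ 4 * ((j : ℝ) + 1) ^ 4 := by positivity
    have h6 : ((((k : ℝ) + 1) * ((j : ℝ) + 1)) ^ 2 / 2) ^ 2 =
        ((k : ℝ) + 1) ^ 4 * ((j : ℝ) + 1) ^ 4 / 4 := by ring
    linarith
  have b6 := mul_le_mul_of_nonneg_right b4 hW0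
  have b7 := mul_le_mul_of_nonneg_right b5 hW0
  have b8 : (((k : ℝ) + 1) ^ 4 * r ^ k) * (((j : ℝ) + 1) ^ 4 * s ^ j) / (n : ℝ) ^ 2 =
      ((k : ℝ) + 1) ^ 4 * ((j : ℝ) + 1) ^ 4 / (n : ℝ) ^ 2 * (r ^ k * s ^ j) := by ring
  rw [b8]
  refine (norm_sub_le _ _).trans ?_
  refine (add_le_add_left (norm_sub_le _ _) _).trans ?_
  refine (add_le_add_left (add_le_add_left (norm_add_le _ _) _) _).trans ?_
  nlinarith

end Pool.Agent.Lib.MP_814f17_an
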