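import Mathlib
import Pool.Agent.Lib.MP_814f17_an.Mono

/-!
The kernel of the second-order term on coefficient arrays of geometric decay.
-/

set_option autoImplicit false

namespace Pool.Agent.Lib.MP_814f17_an

open Filter Topology

/-- The second elementary symmetric function of `0, 1, …, m - 1`. -/
noncomputable def e2 (m : ℕ) : ℝ := (m : ℝ) * (m - 1) * (m - 2) * (3 * m - 1) / 24

/-- The Stirling number `S(k, k - 2)`. -/
noncomputable def s2 (k : ℕ) : ℝ := (k : ℝ) * (k - 1) * (k - 2) * (3 * k - 5) / 24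

/-- The binomial coefficient `(k + 2 choose 3)`. -/
noncomputable def c3 (k : ℕ) : ℝ := ((k : ℝ) + 2) * (k + 1) * k / 6

/-- The degree-lowering operator. -/
noncomputable def low (a : ℕ → ℕ → ℂ) (p q : ℕ) : ℂ :=
  (c2 (p + 1) : ℂ) * a (p + 1) q + (c2 (q + 1) : ℂ) * a p (q + 1)

/-- The coefficients of the second-order term. -/
noncomputable def second (a : ℕ → ℕ → ℂ) (p q : ℕ) : ℂ :=
  (e2 (p + q) : ℂ) * a p q - (c2 (p + q) : ℂ) * low a p q + ((s2 (p + 2) : ℂ) * a (p + 2) q +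
    (c2 (p + 1) : ℂ) * (c2 (q + 1) : ℂ) * a (p + 1) (q + 1) + (s2 (q + 2) : ℂ) * a p (q + 2))

lemma norm_low_le {a : ℕ → ℕ → ℂ} {p q : ℕ} {B : ℝ} (h1 : ‖a (p + 1) q‖ ≤ B)
    (h2 : ‖a p (q + 1)‖ ≤ B) : ‖low a p q‖ ≤ c2 (p + q + 1) * B := by
  have hB : 0 ≤ B := (norm_nonneg _).trans h1
  have h3 : c2 (p + 1) + c2 (q + 1) ≤ c2 (p + q + 1) := by
    have : (0 : ℝ) ≤ p * q := by positivity
    unfold c2; push_cast; nlinarith
  refine (norm_add_le _ _).trans ?_
  rw [norm_mul, norm_mul, Complex.norm_real, Complex.norm_real, Real.norm_of_nonneg (c2_nonneg _),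
    Real.norm_of_nonneg (c2_nonneg _)]
  nlinarith [mul_le_mul_of_nonneg_left h1 (c2_nonneg (p + 1)),
    mul_le_mul_of_nonneg_left h2 (c2_nonneg (q + 1)), mul_le_mul_of_nonneg_right h3 hB]

lemma kernel_step {a : ℕ → ℕ → ℂ} (ha : ∀ p q, second a p q = 0) {u η A : ℝ} (hu0 : 0 < u)
    (hη : 0 < η) (hu : u + 4 * η = 1) {M : ℕ} (hM1 : 1 ≤ M)
    (hM : ∀ m : ℕ, M ≤ m → 6 * (m : ℝ) ≤ η ^ 2 * c2 m) (hA : 0 ≤ A)
    (h : ∀ p q, M ≤ p + q → ‖a p q‖ ≤ A * u ^ (p + q) ∧
      ‖(c2 (p + q) : ℂ) * a p q - low a p q‖ ≤ η * A * c2 (p + q) * u ^ (p + q)) :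
    ∀ p q, M ≤ p + q → ‖a p q‖ ≤ (u + 3 * η) * A * u ^ (p + q) ∧
      ‖(c2 (p + q) : ℂ) * a p q - low a p q‖ ≤ η * ((u + 3 * η) * A) * c2 (p + q) * u ^ (p + q) := by
  intro p q hpq
  set g : ℕ → ℕ → ℂ := fun p q => (c2 (p + q) : ℂ) * a p q - low a p q with hg
  have hm := hM _ hpq
  have hm1 : (1 : ℝ) ≤ ((p + q : ℕ) : ℝ) := by exact_mod_cast hM1.trans hpq
  have hc := c2_succ (p + q)
  have e1 : p + 1 + q = p + q + 1 := by omega
  have e2' : p + 2 + q = p + q + 2 := by omega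
  have a1 := h (p + 1) q (by omega)
  have a2 := h p (q + 1) (by omega)
  have a3 := (h (p + 2) q (by omega)).1
  have a4 := (h p (q + 2) (by omega)).1
  obtain ⟨a5, a6⟩ := h p q hpq
  rw [e1, pow_succ] at a1
  rw [← add_assoc, pow_succ] at a2
  rw [e2', pow_add] at a3
  rw [← add_assoc, pow_add] at a4
  have b1 := norm_low_le a1.1 a2.1
  have b2 : ‖low g p q‖ ≤ c2 (p + q + 1) * (η * A * c2 (p + q + 1) * (u ^ (p + q) * u)) :=
    norm_low_le (a := g) (by simpa only [hg, e1] using a1.2) (by simpa only [hg, add_assoc] using a2.2)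
  have id1 : (c2 (p + q) : ℂ) * g p q = low g p q +
      ((c2 (p + q) * (2 * ((p + q : ℕ) : ℝ) - 1) / 3 : ℝ) : ℂ) * a p q -
      (((p + q : ℕ) : ℝ) : ℂ) * low a p q + ((c3 p : ℂ) * a (p + 2) q + (c3 q : ℂ) * a p (q + 2)) := by
    have := ha p q
    simp only [second, hg, low, e2, s2, c2, c3, add_assoc] at this ⊢
    norm_num at this ⊢
    linear_combination 2 * this
  have c3p : 0 ≤ c3 p := by unfold c3; positivity
  have c3q : 0 ≤ c3 q := by unfold c3; positivity
  have c3s : c3 p + c3 q ≤ ((p + q : ℕ) : ℝ) * c2 (p + q + 1) := by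
    have h1 : (0 : ℝ) ≤ p := by positivity
    have h2 : (0 : ℝ) ≤ q := by positivity
    have h3 : c3 p + c3 q ≤ c3 (p + q) := by
      unfold c3; push_cast; nlinarith [mul_nonneg h1 h2, mul_nonneg (mul_nonneg h1 h2) h1,
        mul_nonneg (mul_nonneg h1 h2) h2]
    refine h3.trans ?_
    unfold c3 c2
    push_cast at hm1 ⊢
    nlinarith [mul_nonneg (mul_nonneg (add_nonneg h1 h2) (by linarith : (0 : ℝ) ≤ p + q + 1))
      (by linarith : (0 : ℝ) ≤ p + q - 1)]
  rw [hc] at b1 b2 c3s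
  have hw : 0 < u ^ (p + q) := by positivity
  have n1 : c2 (p + q) * ‖a p q‖ ≤ ‖g p q‖ + ‖low a p q‖ := by
    have : (c2 (p + q) : ℂ) * a p q = g p q + low a p q := by simp [hg]
    rw [← Real.norm_of_nonneg (c2_nonneg _), ← Complex.norm_real, ← norm_mul, this]
    exact norm_add_le _ _
  have n2 : c2 (p + q) * ‖g p q‖ ≤ ‖low g p q‖ +
      c2 (p + q) * (2 * ((p + q : ℕ) : ℝ) - 1) / 3 * ‖a p q‖ +
      ((p + q : ℕ) : ℝ) * ‖low a p q‖ + (c3 p * ‖a (p + 2) q‖ + c3 q * ‖a p (q + 2)‖) := by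
    have h0 : 0 ≤ c2 (p + q) * (2 * ((p + q : ℕ) : ℝ) - 1) / 3 :=
      div_nonneg (mul_nonneg (c2_nonneg _) (by linarith)) (by norm_num)
    rw [← Real.norm_of_nonneg (c2_nonneg (p + q)), ← Complex.norm_real, ← norm_mul, id1,
      Complex.norm_real, Real.norm_of_nonneg (c2_nonneg (p + q))]
    refine (norm_add_le _ _).trans (add_le_add ((norm_sub_le _ _).trans (add_le_add
      ((norm_add_le _ _).trans (le_of_eq ?_)) (le_of_eq ?_))) ((norm_add_le _ _).trans (le_of_eq ?_)))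
    · rw [norm_mul, Complex.norm_real, Real.norm_of_nonneg h0]
    · rw [norm_mul, Complex.norm_real, Real.norm_of_nonneg (by linarith)]
    · rw [norm_mul, norm_mul, Complex.norm_real, Complex.norm_real, Real.norm_of_nonneg c3p,
        Real.norm_of_nonneg c3q]
  change ‖g p q‖ ≤ _ at a6
  change _ ∧ ‖g p q‖ ≤ _
  generalize ((p + q : ℕ) : ℝ) = m at *
  generalize c2 (p + q) = l at *
  generalize u ^ (p + q) = w at *
  have hu1 : u ≤ 1 := by linarith
  have hl : 0 < l := by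
    by_contra c
    nlinarith [sq_nonneg η, mul_nonneg (sq_nonneg η) (neg_nonneg.2 (not_lt.1 c))]
  have hAw : 0 ≤ A * w := by positivity
  have hml : m ≤ η / 2 * l := by nlinarith [mul_pos hη hl]
  have hml2 : m ≤ l := by nlinarith [mul_pos hη hl]
  have k1 : (l + m) * u ≤ (u + η) * l := by nlinarith [mul_pos hη hl]
  constructor
  · refine le_of_mul_le_mul_left ?_ hl
    nlinarith [mul_le_mul_of_nonneg_right k1 hAw, mul_nonneg (mul_pos hη hl).le hAw]
  · refine le_of_mul_le_mul_left ?_ hl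
    have k2 : (l + m) * (l + m) * u ≤ (u + 2 * η) * (l * l) := by
      have k3 : l + m ≤ (1 + η) * l := by nlinarith [mul_pos hη hl]
      have k4 := mul_le_mul k1 k3 (by linarith) (by positivity)
      have k5 : (u + η) * (1 + η) ≤ u + 2 * η := by nlinarith
      nlinarith [mul_le_mul_of_nonneg_right k5 (mul_pos hl hl).le]
    have d1 : ‖low g p q‖ ≤ η * (u + 2 * η) * (l * l) * (A * w) := by
      nlinarith [mul_le_mul_of_nonneg_right k2 (mul_nonneg hη.le hAw)]
    have d2 : l * (2 * m - 1) / 3 * ‖a p q‖ ≤ m * (2 * l) * (A * w) :=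
      mul_le_mul (by nlinarith) a5 (norm_nonneg _) (by positivity)
    have d3 : m * ‖low a p q‖ ≤ m * (2 * l) * (A * w) := by
      rw [mul_assoc]
      refine mul_le_mul_of_nonneg_left (b1.trans ?_) (by linarith)
      exact mul_le_mul (by linarith) (by nlinarith) (by positivity) (by positivity)
    have d4 : c3 p * ‖a (p + 2) q‖ + c3 q * ‖a p (q + 2)‖ ≤ m * (2 * l) * (A * w) := by
      have k6 : A * (w * u ^ 2) ≤ A * w := by
        nlinarith [mul_le_mul_of_nonneg_left (pow_le_one₀ hu0.le hu1 (n := 2)) hAw]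
      have k7 : c3 p + c3 q ≤ m * (2 * l) := c3s.trans (by nlinarith)
      nlinarith [mul_le_mul_of_nonneg_left (a3.trans k6) c3p,
        mul_le_mul_of_nonneg_left (a4.trans k6) c3q, mul_le_mul_of_nonneg_right k7 hAw]
    nlinarith [mul_le_mul_of_nonneg_right hm (mul_nonneg hl.le hAw)]

theorem kernel {a : ℕ → ℕ → ℂ} (ha : ∀ p q, second a p q = 0) {u C : ℝ} (hu0 : 0 < u)
    (hu1 : u < 1) (hC : ∀ p q, ‖a p q‖ ≤ C * u ^ (p + q)) : ∀ p q, 3 ≤ p + q → a p q = 0 := by
  set η := (1 - u) / 4 with hη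
  have hη0 : 0 < η := by linarith
  have hC0 : 0 ≤ C := by simpa using (norm_nonneg _).trans (hC 0 0)
  obtain ⟨M, hM⟩ := exists_nat_ge (12 / η ^ 2)
  have hM' : ∀ m : ℕ, M + 1 ≤ m → 6 * (m : ℝ) ≤ η ^ 2 * c2 m := by
    intro m hm
    have h1 : (M : ℝ) + 1 ≤ m := by exact_mod_cast hm
    have h2 : 12 ≤ (M : ℝ) * η ^ 2 := (div_le_iff₀ (by positivity)).1 hM
    have h3 : 12 ≤ ((m : ℝ) - 1) * η ^ 2 := by nlinarith [sq_nonneg η]
    have h4 : (0 : ℝ) ≤ m := by positivity
    unfold c2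
    nlinarith [mul_le_mul_of_nonneg_left h3 h4]
  have main : ∀ N : ℕ, ∀ p q, M + 1 ≤ p + q →
      ‖a p q‖ ≤ (u + 3 * η) ^ N * (3 * C / η) * u ^ (p + q) ∧
      ‖(c2 (p + q) : ℂ) * a p q - low a p q‖ ≤
        η * ((u + 3 * η) ^ N * (3 * C / η)) * c2 (p + q) * u ^ (p + q) := by
    intro N
    induction N with
    | zero =>
      intro p q hpq
      have hw : 0 < u ^ (p + q) := by positivity
      have h1 := hC p q
      have h2 := hM' _ hpq
      have h3 : ‖low a p q‖ ≤ c2 (p + q + 1) * (C * u ^ (p + q + 1)) :=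
        norm_low_le (by simpa only [show p + 1 + q = p + q + 1 by omega] using hC (p + 1) q)
          (hC p (q + 1))
      have h4 : C ≤ 3 * C / η := by rw [le_div_iff₀ hη0]; nlinarith
      have h5 := c2_nonneg (p + q)
      have h6 : ((p + q : ℕ) : ℝ) ≤ c2 (p + q) := by
        have : η ^ 2 ≤ 1 := by nlinarith
        have : (0 : ℝ) ≤ ((p + q : ℕ) : ℝ) := by positivity
        nlinarith
      rw [pow_zero, one_mul, mul_div_cancel₀ _ hη0.ne']
      refine ⟨h1.trans (mul_le_mul_of_nonneg_right h4 hw.le), (norm_sub_le _ _).trans ?_⟩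
      rw [norm_mul, Complex.norm_real, Real.norm_of_nonneg h5]
      rw [c2_succ, pow_succ] at h3
      have h7 : (c2 (p + q) + ((p + q : ℕ) : ℝ)) * (C * (u ^ (p + q) * u)) ≤
          (2 * c2 (p + q)) * (C * u ^ (p + q)) :=
        mul_le_mul (by linarith) (by nlinarith [mul_nonneg hC0 hw.le]) (by positivity)
          (by positivity)
      nlinarith [mul_le_mul_of_nonneg_left h1 h5]
    | succ N ih =>
      have := kernel_step ha hu0 hη0 (by linarith) (by omega) hM' (by positivity) ih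
      simpa only [pow_succ', mul_assoc] using this
  have top : ∀ p q, M + 1 ≤ p + q → a p q = 0 := by
    intro p q hpq
    have h1 := ((tendsto_pow_atTop_nhds_zero_of_lt_one (r := u + 3 * η) (by linarith)
      (by linarith)).mul_const (3 * C / η)).mul_const (u ^ (p + q))
    rw [zero_mul, zero_mul] at h1
    exact norm_le_zero_iff.1 (ge_of_tendsto' h1 fun N => (main N p q hpq).1)
  have down : ∀ d p q, 3 ≤ p + q → M + 1 ≤ p + q + d → a p q = 0 := by
    intro d
    induction d with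
    | zero => exact fun p q _ h => top p q h
    | succ d ih =>
      intro p q h3 h
      have := ha p q
      simp only [second, low, ih (p + 1) q (by omega) (by omega), ih p (q + 1) (by omega) (by omega),
        ih (p + 2) q (by omega) (by omega), ih p (q + 2) (by omega) (by omega),
        ih (p + 1) (q + 1) (by omega) (by omega), mul_zero, add_zero, sub_zero] at this
      refine (mul_eq_zero.1 this).resolve_left (Complex.ofReal_ne_zero.2 (ne_of_gt ?_))
      have h4 : (3 : ℝ) ≤ ((p + q : ℕ) : ℝ) := by exact_mod_cast h3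
      unfold e2
      exact div_pos (mul_pos (mul_pos (mul_pos (by linarith) (by linarith)) (by linarith))
        (by linarith)) (by norm_num)
  exact fun p q h => down (M + 1) p q h (by omega)

end Pool.Agent.Lib.MP_814f17_an
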