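import Mathlib
import Pool.Agent.Lib.MP_814f17_an.Kernel

/-!
The second-order term of the Bernstein operator on monomials.
-/

set_option autoImplicit false

namespace Pool.Agent.Lib.MP_814f17_an

open Finset Nat Filter Topology

lemma tendsto_nat_div (c : ℝ) : Tendsto (fun n : ℕ => c / (n : ℝ)) atTop (𝓝 0) :=
  tendsto_const_div_atTop_nhds_zero_nat c

lemma uf_tendsto (m : ℕ) : Tendsto (fun n : ℕ => uf n m) atTop (𝓝 1) := by
  induction m with
  | zero => simp [uf]
  | succ m ih =>
    have h := ih.sub (ih.mul (tendsto_nat_div m))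
    rw [mul_zero, sub_zero] at h
    refine h.congr' ?_
    filter_upwards [eventually_ge_atTop 1] with n hn
    rw [uf_succ hn]

lemma uf_tendsto1 (m : ℕ) : Tendsto (fun n : ℕ => (n : ℝ) * (1 - uf n m)) atTop (𝓝 (c2 m)) := by
  induction m with
  | zero => simp [uf, c2]
  | succ m ih =>
    have h := ih.add ((uf_tendsto m).mul_const (m : ℝ))
    rw [one_mul, ← c2_succ] at h
    refine h.congr' ?_
    filter_upwards [eventually_ge_atTop 1] with n hn
    have : (n : ℝ) ≠ 0 := by positivity
    rw [uf_succ hn]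
    field_simp
    ring

lemma uf_tendsto2 (m : ℕ) :
    Tendsto (fun n : ℕ => (n : ℝ) ^ 2 * (uf n m - (1 - c2 m / n))) atTop (𝓝 (e2 m)) := by
  induction m with
  | zero => simp [uf, c2, e2]
  | succ m ih =>
    have h := ih.add ((uf_tendsto1 m).mul_const (m : ℝ))
    have e : e2 m + c2 m * m = e2 (m + 1) := by
      unfold e2 c2; push_cast; ring
    rw [e] at h
    refine h.congr' ?_
    filter_upwards [eventually_ge_atTop 1] with n hn
    have : (n : ℝ) ≠ 0 := by positivity
    rw [uf_succ hn, c2_succ]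
    field_simp
    ring

lemma desc_tendsto {m N : ℕ} (h : m ≤ N) :
    Tendsto (fun n : ℕ => (n : ℝ) ^ 2 * ((n.descFactorial m : ℝ) / (n : ℝ) ^ N -
      ((if m + 0 = N then 1 else 0) * (1 - c2 N / n) + (if m + 1 = N then 1 else 0) * (1 / n))))
      atTop (𝓝 ((if m + 0 = N then 1 else 0) * e2 N - (if m + 1 = N then 1 else 0) * c2 (N - 1) +
        (if m + 2 = N then 1 else 0))) := by
  obtain ⟨d, rfl⟩ := Nat.exists_eq_add_of_le h
  rcases d with _ | _ | _ | d
  · simpa [uf] using uf_tendsto2 m
  · have h1 := (uf_tendsto1 m).neg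
    simp only [zero_add, add_right_inj, if_false, if_true, zero_mul, one_mul, zero_sub,
      OfNat.ofNat_ne_one, add_zero, add_tsub_cancel_right, left_eq_add, one_ne_zero]
    refine h1.congr' ?_
    filter_upwards [eventually_ge_atTop 1] with n hn
    have : (n : ℝ) ≠ 0 := by positivity
    rw [uf]
    field_simp
    ring
  · have h1 := uf_tendsto m
    rw [if_neg (by omega), if_neg (by omega), if_pos (by omega)]
    simp only [zero_mul, add_zero, sub_zero, zero_add]
    refine h1.congr' ?_
    filter_upwards [eventually_ge_atTop 1] with n hn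
    have : (n : ℝ) ≠ 0 := by positivity
    rw [uf]
    field_simp
    ring
  · have h1 := (uf_tendsto m).mul ((tendsto_nat_div 1).pow (d + 1))
    rw [if_neg (by omega), if_neg (by omega), if_neg (by omega)]
    simp only [zero_mul, add_zero, sub_zero]
    rw [zero_pow (by omega), mul_zero] at h1
    refine h1.congr' ?_
    filter_upwards [eventually_ge_atTop 1] with n hn
    have : (n : ℝ) ≠ 0 := by positivity
    rw [uf, div_pow]
    field_simp
    ring

lemma stirling_two (k : ℕ) : (stirlingSecond (k + 2) k : ℝ) = s2 (k + 2) := by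
  induction k with
  | zero => simp [s2, stirlingSecond_succ_zero]
  | succ k ih =>
    rw [show k + 1 + 2 = (k + 2) + 1 by omega, stirlingSecond_succ_succ]
    push_cast
    rw [ih, show k + 2 = (k + 1) + 1 by omega, stirlingSecond_succ_self_left, ← c2_eq]
    unfold s2 c2; push_cast; ring

/-- A diagonal part of the Stirling expansion. -/
noncomputable def diag (d k : ℕ) (x : ℂ) : ℂ :=
  ∑ p ∈ range (k + 1), (if p + d = k then (1 : ℂ) else 0) * ((stirlingSecond k p : ℂ) * x ^ p)

lemma diag_eq (d k : ℕ) (x : ℂ) :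
    diag d k x = if d ≤ k then (stirlingSecond k (k - d) : ℂ) * x ^ (k - d) else 0 := by
  unfold diag
  split_ifs with h
  · rw [Finset.sum_eq_single (k - d)]
    · rw [if_pos (by omega), one_mul]
    · intro p _ hp
      rw [if_neg (by omega), zero_mul]
    · intro hp
      exact absurd (Finset.mem_range.mpr (by omega)) hp
  · refine Finset.sum_eq_zero fun p _ => ?_
    rw [if_neg (by omega), zero_mul]

lemma diag_zero (k : ℕ) (x : ℂ) : diag 0 k x = x ^ k := by
  simp [diag_eq, stirlingSecond_self]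

lemma diag_one (k : ℕ) (x : ℂ) : diag 1 k x = (c2 k : ℂ) * x ^ (k - 1) := by
  rw [diag_eq]
  split_ifs with h
  · rw [← stirling_pred k (by omega)]
    simp
  · have : k = 0 := by omega
    simp [this, c2]

lemma diag_two (k : ℕ) (x : ℂ) : diag 2 k x = (s2 k : ℂ) * x ^ (k - 2) := by
  rw [diag_eq]
  split_ifs with h
  · obtain ⟨k, rfl⟩ : ∃ m, k = m + 2 := ⟨k - 2, by omega⟩
    rw [← stirling_two, add_tsub_cancel_right]
    simp
  · have : k = 0 ∨ k = 1 := by omega
    rcases this with rfl | rfl <;> simp [s2]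

/-- A diagonal part of the double Stirling expansion. -/
noncomputable def diag2 (d k j : ℕ) (x y : ℂ) : ℂ :=
  ∑ p ∈ range (k + 1), ∑ q ∈ range (j + 1), (if p + q + d = k + j then (1 : ℂ) else 0) *
    ((stirlingSecond k p : ℂ) * x ^ p * ((stirlingSecond j q : ℂ) * y ^ q))

lemma diag2_zero (k j : ℕ) (x y : ℂ) : diag2 0 k j x y = diag 0 k x * diag 0 j y := by
  simp only [diag2, diag, Finset.sum_mul_sum]
  refine Finset.sum_congr rfl fun p hp => Finset.sum_congr rfl fun q hq => ?_
  have := Finset.mem_range.mp hp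
  have := Finset.mem_range.mp hq
  split_ifs <;> first | ring1 | omega

lemma diag2_one (k j : ℕ) (x y : ℂ) :
    diag2 1 k j x y = diag 1 k x * diag 0 j y + diag 0 k x * diag 1 j y := by
  simp only [diag2, diag, Finset.sum_mul_sum, ← Finset.sum_add_distrib]
  refine Finset.sum_congr rfl fun p hp => Finset.sum_congr rfl fun q hq => ?_
  have := Finset.mem_range.mp hp
  have := Finset.mem_range.mp hq
  split_ifs <;> first | ring1 | omega

lemma diag2_two (k j : ℕ) (x y : ℂ) :
    diag2 2 k j x y = diag 2 k x * diag 0 j y + diag 1 k x * diag 1 j y + diag 0 k x * diag 2 j y := by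
  simp only [diag2, diag, Finset.sum_mul_sum, ← Finset.sum_add_distrib]
  refine Finset.sum_congr rfl fun p hp => Finset.sum_congr rfl fun q hq => ?_
  have := Finset.mem_range.mp hp
  have := Finset.mem_range.mp hq
  split_ifs <;> first | ring1 | omega

/-- The second-order term on a monomial. -/
noncomputable def gmono (k j : ℕ) (x y : ℂ) : ℂ :=
  (e2 (k + j) : ℂ) * (x ^ (k - 0) * y ^ (j - 0)) -
    (((c2 (k + j - 1) * c2 k : ℝ) : ℂ) * (x ^ (k - 1) * y ^ (j - 0)) +
      ((c2 (k + j - 1) * c2 j : ℝ) : ℂ) * (x ^ (k - 0) * y ^ (j - 1))) +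
    ((s2 k : ℂ) * (x ^ (k - 2) * y ^ (j - 0)) + ((c2 k * c2 j : ℝ) : ℂ) * (x ^ (k - 1) * y ^ (j - 1)) +
      (s2 j : ℂ) * (x ^ (k - 0) * y ^ (j - 2)))

theorem mono_tendsto (k j : ℕ) (x y : ℂ) :
    Tendsto (fun n : ℕ => (n : ℂ) ^ 2 *
      (bop n (fun a b => ((a : ℂ) / n) ^ k * ((b : ℂ) / n) ^ j) x y - x ^ k * y ^ j -
      (1 / (2 * (n : ℂ))) *
        (x * (1 - x) * ((k : ℂ) * (((k - 1 : ℕ) : ℂ) * x ^ (k - 1 - 1)) * y ^ j)
        - 2 * x * y * ((k : ℂ) * x ^ (k - 1) * ((j : ℂ) * y ^ (j - 1)))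
        + y * (1 - y) * (x ^ k * ((j : ℂ) * (((j - 1 : ℕ) : ℂ) * y ^ (j - 1 - 1))))))) atTop
      (𝓝 (gmono k j x y)) := by
  have h1 := tendsto_finsetSum (range (k + 1)) fun p (hp : p ∈ range (k + 1)) =>
    tendsto_finsetSum (range (j + 1)) fun q (hq : q ∈ range (j + 1)) =>
      ((Complex.continuous_ofReal.tendsto _).comp (desc_tendsto (m := p + q) (N := k + j) (by
        have := Finset.mem_range.mp hp
        have := Finset.mem_range.mp hq
        omega))).mul_const
        ((stirlingSecond k p : ℂ) * x ^ p * ((stirlingSecond j q : ℂ) * y ^ q))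
  have h2 : gmono k j x y = (e2 (k + j) : ℂ) * diag2 0 k j x y -
      (c2 (k + j - 1) : ℂ) * diag2 1 k j x y + diag2 2 k j x y := by
    rw [diag2_zero, diag2_one, diag2_two]
    simp only [diag_zero, diag_one, diag_two, gmono, Nat.sub_zero]
    push_cast
    ring
  convert h1 using 2
  · rename_i n
    have h3 : ((c2 k / n : ℝ) : ℂ) * (x ^ (k - 1) * y ^ j) +
        ((c2 j / n : ℝ) : ℂ) * (x ^ k * y ^ (j - 1)) - ((c2 (k + j) / n : ℝ) : ℂ) * (x ^ k * y ^ j) =
        (1 - (c2 (k + j) : ℂ) / n) * diag2 0 k j x y + (1 / n) * diag2 1 k j x y - x ^ k * y ^ j := by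
      rw [diag2_zero, diag2_one]
      simp only [diag_zero, diag_one]
      push_cast
      ring
    rw [vor_mono, h3, bop_mono, sub_sub, add_sub_cancel]
    simp only [diag2, Finset.mul_sum, ← Finset.sum_add_distrib, ← Finset.sum_sub_distrib]
    refine Finset.sum_congr rfl fun p _ => Finset.sum_congr rfl fun q _ => ?_
    simp only [Function.comp, Complex.real_smul]
    split_ifs <;> push_cast <;> ring
  · rw [h2]
    simp only [diag2, Finset.mul_sum, ← Finset.sum_add_distrib, ← Finset.sum_sub_distrib]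
    refine Finset.sum_congr rfl fun p _ => Finset.sum_congr rfl fun q _ => ?_
    split_ifs <;> push_cast <;> ring

end Pool.Agent.Lib.MP_814f17_an
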