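import Mathlib
import Pool.Agent.Lib.MP_814f17_an.Mono

set_option autoImplicit false

namespace Pool.Agent.Lib.MP_814f17_an

open Finset Metric

lemma exists_poly_geom {r t : ℝ} (hr : 0 < r) (hrt : r < t) :
    ∃ K : ℝ, 0 ≤ K ∧ ∀ k : ℕ, ((k : ℝ) + 1) ^ 4 * r ^ k ≤ K * t ^ k := by
  have ht : 0 < t := hr.trans hrt
  have hq : 0 < r / t := div_pos hr ht
  have h1 := tendsto_pow_const_mul_const_pow_of_abs_lt_one 4 (r := r / t)
    (by rw [abs_of_pos hq, div_lt_one ht]; exact hrt)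
  obtain ⟨B, hB⟩ := h1.bddAbove_range
  have hB0 : 0 ≤ B := le_trans (by simp) (hB ⟨0, rfl⟩)
  refine ⟨B / (r / t), by positivity, fun k => ?_⟩
  have h2 : (((k + 1 : ℕ) : ℝ)) ^ 4 * (r / t) ^ (k + 1) ≤ B := hB ⟨k + 1, rfl⟩
  push_cast at h2
  have h3 : ((k : ℝ) + 1) ^ 4 * r ^ k = ((k : ℝ) + 1) ^ 4 * (r / t) ^ (k + 1) / (r / t) * t ^ k := by
    rw [div_pow, pow_succ r, pow_succ t]
    field_simp
  rw [h3]
  gcongr

/-- The double power series with coefficients a represents f on the polydisc. -/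
def Rep (R S : ℝ) (a : ℕ → ℕ → ℂ) (f : ℂ × ℂ → ℂ) : Prop :=
  ∀ x y : ℂ, ‖x‖ < R → ‖y‖ < S →
    HasSum (fun i : ℕ × ℕ => a i.1 i.2 * x ^ i.1 * y ^ i.2) (f (x, y))

/-- The majorant. -/
noncomputable def maj (a : ℕ → ℕ → ℂ) (r s : ℝ) (i : ℕ × ℕ) : ℝ :=
  ‖a i.1 i.2‖ * ((((i.1 : ℝ) + 1) ^ 4 * r ^ i.1) * (((i.2 : ℝ) + 1) ^ 4 * s ^ i.2))

lemma Rep.summable_maj {R S : ℝ} {a : ℕ → ℕ → ℂ} {f : ℂ × ℂ → ℂ} (h : Rep R S a f) {r s : ℝ}
    (hr : 0 < r) (hs : 0 < s) (hrR : r < R) (hsS : s < S) : Summable (maj a r s) := by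
  obtain ⟨t, ht1, ht2⟩ := exists_between hrR
  obtain ⟨u, hu1, hu2⟩ := exists_between hsS
  have ht : 0 < t := hr.trans ht1
  have hu : 0 < u := hs.trans hu1
  obtain ⟨K, hK0, hK⟩ := exists_poly_geom hr ht1
  obtain ⟨L, hL0, hL⟩ := exists_poly_geom hs hu1
  have h1 := (h t u (by rwa [Complex.norm_real, Real.norm_of_nonneg ht.le])
    (by rwa [Complex.norm_real, Real.norm_of_nonneg hu.le])).summable
  have h2 := (summable_norm_iff.mpr h1).mul_left (K * L)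
  refine Summable.of_nonneg_of_le (fun i => by unfold maj; positivity) (fun i => ?_) h2
  rw [norm_mul, norm_mul, norm_pow, norm_pow, Complex.norm_real, Complex.norm_real,
    Real.norm_of_nonneg ht.le, Real.norm_of_nonneg hu.le]
  unfold maj
  calc ‖a i.1 i.2‖ * ((((i.1 : ℝ) + 1) ^ 4 * r ^ i.1) * (((i.2 : ℝ) + 1) ^ 4 * s ^ i.2))
      ≤ ‖a i.1 i.2‖ * ((K * t ^ i.1) * (L * u ^ i.2)) := by
        refine mul_le_mul_of_nonneg_left ?_ (norm_nonneg _)
        exact mul_le_mul (hK _) (hL _) (by positivity) (by positivity)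
    _ = _ := by ring

lemma hasSum_deriv_of {ι : Type} {F F' : ι → ℂ → ℂ} {g : ℂ → ℂ} {r : ℝ} {u : ι → ℝ}
    (hF : ∀ i z, HasDerivAt (F i) (F' i z) z) (hu : Summable u)
    (hb : ∀ i z, ‖z‖ < r → ‖F i z‖ ≤ u i) (hg : ∀ z, ‖z‖ < r → HasSum (fun i => F i z) (g z))
    {z : ℂ} (hz : ‖z‖ < r) : HasSum (fun i => F' i z) (deriv g z) := by
  have hz' : z ∈ ball (0 : ℂ) r := by simpa using hz
  have h1 := Complex.hasSum_deriv_of_summable_norm (F := F) hu
    (fun i w _ => (hF i w).differentiableAt.differentiableWithinAt) isOpen_ball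
    (fun i w hw => hb i w (by simpa using hw)) hz'
  have h2 : deriv g z = deriv (fun w => ∑' i, F i w) z := by
    refine Filter.EventuallyEq.deriv_eq ?_
    filter_upwards [isOpen_ball.mem_nhds hz'] with w hw
    exact (hg w (by simpa using hw)).tsum_eq.symm
  rw [h2]
  exact h1.congr_fun fun i => (hF i z).deriv.symm

lemma pw0 {z : ℂ} {r : ℝ} (hz : ‖z‖ ≤ r) (k : ℕ) : ‖z ^ k‖ ≤ ((k : ℝ) + 1) ^ 4 * r ^ k := by
  have hr : 0 ≤ r := (norm_nonneg _).trans hz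
  have h1 : (1 : ℝ) ≤ ((k : ℝ) + 1) ^ 4 := one_le_pow₀ (by simp)
  rw [norm_pow]
  exact (pow_le_pow_left₀ (norm_nonneg _) hz k).trans (le_mul_of_one_le_left (by positivity) h1)

lemma pw1 {z : ℂ} {r : ℝ} (hr : 1 ≤ r) (hz : ‖z‖ ≤ r) (k : ℕ) :
    ‖(k : ℂ) * z ^ (k - 1)‖ ≤ ((k : ℝ) + 1) ^ 4 * r ^ k := by
  have h1 : (k : ℝ) ≤ ((k : ℝ) + 1) ^ 4 :=
    (by linarith : (k : ℝ) ≤ k + 1).trans (le_self_pow₀ (by simp) (by norm_num))
  rw [norm_mul, norm_pow, Complex.norm_natCast]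
  exact mul_le_mul h1 ((pow_le_pow_left₀ (norm_nonneg _) hz _).trans
    (pow_le_pow_right₀ hr (Nat.sub_le _ _))) (by positivity) (by positivity)

section

variable {R S : ℝ} {a : ℕ → ℕ → ℂ} {f : ℂ × ℂ → ℂ}

lemma norm_term_le {c X Y : ℂ} {A B : ℝ} (hX : ‖X‖ ≤ A) (hY : ‖Y‖ ≤ B) :
    ‖c * X * Y‖ ≤ ‖c‖ * (A * B) := by
  rw [mul_assoc, norm_mul, norm_mul]
  exact mul_le_mul_of_nonneg_left
    (mul_le_mul hX hY (norm_nonneg _) ((norm_nonneg _).trans hX)) (norm_nonneg _)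

lemma Rep.d11 (h : Rep R S a f) {r s : ℝ} (hr : 1 ≤ r) (hs : 1 ≤ s) (hrR : r < R) (hsS : s < S)
    {x y : ℂ} (hx : ‖x‖ < r) (hy : ‖y‖ < s) :
    HasSum (fun i : ℕ × ℕ => a i.1 i.2 *
      ((i.1 : ℂ) * (((i.1 - 1 : ℕ) : ℂ) * x ^ (i.1 - 1 - 1))) * y ^ i.2)
      (deriv (deriv fun z => f (z, y)) x) := by
  have hm := h.summable_maj (by linarith) (by linarith) hrR hsS
  refine hasSum_deriv_of (F := fun (i : ℕ × ℕ) z => a i.1 i.2 * ((i.1 : ℂ) * z ^ (i.1 - 1)) * y ^ i.2)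
    (fun i z => (((hasDerivAt_pow (i.1 - 1) z).const_mul _).const_mul _).mul_const _) hm
    (fun i z hz => norm_term_le (pw1 hr hz.le _) (pw0 hy.le _)) (fun z hz => ?_) hx
  exact hasSum_deriv_of (F := fun (i : ℕ × ℕ) z => a i.1 i.2 * z ^ i.1 * y ^ i.2)
    (fun i z => ((hasDerivAt_pow i.1 z).const_mul _).mul_const _) hm
    (fun i z hz => norm_term_le (pw0 hz.le _) (pw0 hy.le _))
    (fun z hz => h z y (hz.trans hrR) (hy.trans hsS)) hz

lemma Rep.d2 (h : Rep R S a f) {r s : ℝ} (hr : 1 ≤ r) (hs : 1 ≤ s) (hrR : r < R) (hsS : s < S)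
    {x y : ℂ} (hx : ‖x‖ < r) (hy : ‖y‖ < s) :
    HasSum (fun i : ℕ × ℕ => a i.1 i.2 * x ^ i.1 * ((i.2 : ℂ) * y ^ (i.2 - 1)))
      (deriv (fun z => f (x, z)) y) := by
  have hm := h.summable_maj (by linarith) (by linarith) hrR hsS
  exact hasSum_deriv_of (F := fun (i : ℕ × ℕ) z => a i.1 i.2 * x ^ i.1 * z ^ i.2)
    (fun i z => (hasDerivAt_pow i.2 z).const_mul _) hm
    (fun i z hz => norm_term_le (pw0 hx.le _) (pw0 hz.le _))
    (fun z hz => h x z (hx.trans hrR) (hz.trans hsS)) hy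

lemma Rep.d22 (h : Rep R S a f) {r s : ℝ} (hr : 1 ≤ r) (hs : 1 ≤ s) (hrR : r < R) (hsS : s < S)
    {x y : ℂ} (hx : ‖x‖ < r) (hy : ‖y‖ < s) :
    HasSum (fun i : ℕ × ℕ => a i.1 i.2 * x ^ i.1 *
      ((i.2 : ℂ) * (((i.2 - 1 : ℕ) : ℂ) * y ^ (i.2 - 1 - 1))))
      (deriv (deriv fun z => f (x, z)) y) := by
  have hm := h.summable_maj (by linarith) (by linarith) hrR hsS
  exact hasSum_deriv_of (F := fun (i : ℕ × ℕ) z => a i.1 i.2 * x ^ i.1 * ((i.2 : ℂ) * z ^ (i.2 - 1)))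
    (fun i z => ((hasDerivAt_pow (i.2 - 1) z).const_mul _).const_mul _) hm
    (fun i z hz => norm_term_le (pw0 hx.le _) (pw1 hs hz.le _))
    (fun z hz => h.d2 hr hs hrR hsS hx hz) hy

lemma Rep.d12 (h : Rep R S a f) {r s : ℝ} (hr : 1 ≤ r) (hs : 1 ≤ s) (hrR : r < R) (hsS : s < S)
    {x y : ℂ} (hx : ‖x‖ < r) (hy : ‖y‖ < s) :
    HasSum (fun i : ℕ × ℕ => a i.1 i.2 * ((i.1 : ℂ) * x ^ (i.1 - 1)) * ((i.2 : ℂ) * y ^ (i.2 - 1)))
      (deriv (fun z => deriv (fun w => f (z, w)) y) x) := by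
  have hm := h.summable_maj (by linarith) (by linarith) hrR hsS
  exact hasSum_deriv_of (F := fun (i : ℕ × ℕ) z => a i.1 i.2 * z ^ i.1 * ((i.2 : ℂ) * y ^ (i.2 - 1)))
    (fun i z => ((hasDerivAt_pow i.1 z).const_mul _).mul_const _) hm
    (fun i z hz => norm_term_le (pw0 hz.le _) (pw1 hs hy.le _))
    (fun z hz => h.d2 hr hs hrR hsS hz hy) hx

lemma Rep.bop (h : Rep R S a f) (hR : 1 < R) (hS : 1 < S) (n : ℕ) (x y : ℂ) :
    HasSum (fun i : ℕ × ℕ => a i.1 i.2 *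
      bop n (fun p q => ((p : ℂ) / n) ^ i.1 * ((q : ℂ) / n) ^ i.2) x y)
      (bop n (fun p q => f ((p : ℂ) / n, (q : ℂ) / n)) x y) := by
  have hle : ∀ p : ℕ, p ≤ n → ‖(p : ℂ) / n‖ ≤ 1 := by
    intro p hp
    rw [norm_div, Complex.norm_natCast, Complex.norm_natCast]
    exact div_le_one_of_le₀ (by exact_mod_cast hp) (by positivity)
  unfold Pool.Agent.Lib.MP_814f17_an.bop
  simp only [Finset.mul_sum]
  refine hasSum_sum fun p hp => hasSum_sum fun q hq => ?_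
  have hp' : p ≤ n := by have := Finset.mem_range.mp hp; omega
  have hq' : q ≤ n := by have := Finset.mem_range.mp hq; omega
  refine ((h _ _ ((hle p hp').trans_lt hR) ((hle q hq').trans_lt hS)).mul_left _).congr_fun ?_
  intro i
  ring

theorem Rep.main (h : Rep R S a f) {ρ τ : ℝ} (hρ : 1 ≤ ρ) (hτ : 1 ≤ τ) (hρR : ρ < R) (hτS : τ < S) :
    ∃ C : ℝ, ∀ n : ℕ, 1 ≤ n → ∀ x y : ℂ, ‖x‖ ≤ ρ → ‖y‖ ≤ τ →
      ‖Pool.Agent.Lib.MP_814f17_an.bop n (fun p q => f ((p : ℂ) / n, (q : ℂ) / n)) x y - f (x, y) -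
        (1 / (2 * (n : ℂ))) * (x * (1 - x) * deriv (deriv fun z => f (z, y)) x
          - 2 * x * y * deriv (fun z => deriv (fun w => f (z, w)) y) x
          + y * (1 - y) * deriv (deriv fun z => f (x, z)) y)‖ ≤ C / (n : ℝ) ^ 2 := by
  obtain ⟨r, hr1, hr2⟩ := exists_between hρR
  obtain ⟨s, hs1, hs2⟩ := exists_between hτS
  have hm := h.summable_maj (by linarith) (by linarith) hρR hτS
  refine ⟨∑' i, maj a ρ τ i, fun n hn x y hx hy => ?_⟩
  have hr : 1 ≤ r := by linarith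
  have hs : 1 ≤ s := by linarith
  have hx' := hx.trans_lt hr1
  have hy' := hy.trans_lt hs1
  have h1 := ((h.bop (by linarith) (by linarith) n x y).sub
    (h x y (hx'.trans hr2) (hy'.trans hs2))).sub
    (((((h.d11 hr hs hr2 hs2 hx' hy').mul_left (x * (1 - x))).sub
      ((h.d12 hr hs hr2 hs2 hx' hy').mul_left (2 * x * y))).add
      ((h.d22 hr hs hr2 hs2 hx' hy').mul_left (y * (1 - y)))).mul_left (1 / (2 * (n : ℂ))))
  rw [← h1.tsum_eq]
  refine tsum_of_norm_bounded (hm.hasSum.div_const _) fun i => ?_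
  have h2 := mul_le_mul_of_nonneg_left (mono_bound hn i.1 i.2 hρ hτ hx hy) (norm_nonneg (a i.1 i.2))
  rw [← norm_mul, ← mul_div_assoc] at h2
  refine le_trans (le_of_eq ?_) h2
  congr 1
  ring

end

/-- The derivative in the first variable. -/
noncomputable def d1 (f : ℂ × ℂ → ℂ) (w : ℂ × ℂ) : ℂ := fderiv ℂ f w (1, 0)

lemma analytic_d1 {U : Set (ℂ × ℂ)} {f : ℂ × ℂ → ℂ} (hf : AnalyticOnNhd ℂ f U) :
    AnalyticOnNhd ℂ (d1 f) U := fun w hw =>
  ((ContinuousLinearMap.apply ℂ ℂ ((1, 0) : ℂ × ℂ)).analyticAt _).comp (hf.fderiv w hw)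

lemma analytic_iter {U : Set (ℂ × ℂ)} {f : ℂ × ℂ → ℂ} (hf : AnalyticOnNhd ℂ f U) (k : ℕ) :
    AnalyticOnNhd ℂ (d1^[k] f) U := by
  induction k with
  | zero => exact hf
  | succ k ih =>
    rw [Function.iterate_succ_apply']
    exact analytic_d1 ih

lemma iteratedDeriv_slice {R S : ℝ} {f : ℂ × ℂ → ℂ}
    (hf : AnalyticOnNhd ℂ f (ball (0 : ℂ) R ×ˢ ball (0 : ℂ) S)) (k : ℕ) {y : ℂ}
    (hy : y ∈ ball (0 : ℂ) S) : ∀ x ∈ ball (0 : ℂ) R,
      iteratedDeriv k (fun z => f (z, y)) x = (d1^[k] f) (x, y) := by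
  induction k with
  | zero => intro x _; simp
  | succ k ih =>
    intro x hx
    rw [iteratedDeriv_succ, Function.iterate_succ_apply']
    have h1 : deriv (iteratedDeriv k fun z => f (z, y)) x = deriv (fun z => (d1^[k] f) (z, y)) x := by
      refine Filter.EventuallyEq.deriv_eq ?_
      filter_upwards [isOpen_ball.mem_nhds hx] with w hw
      exact ih w hw
    have h2 : HasFDerivAt (d1^[k] f) (fderiv ℂ (d1^[k] f) (x, y)) (x, y) :=
      (analytic_iter hf k (x, y) ⟨hx, hy⟩).differentiableAt.hasFDerivAt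
    have h3 : HasDerivAt (fun z : ℂ => (z, y)) ((1, 0) : ℂ × ℂ) x :=
      (hasDerivAt_id x).prodMk (hasDerivAt_const x y)
    rw [h1]
    exact (h2.comp_hasDerivAt x h3).deriv

theorem exists_rep {R S : ℝ} {f : ℂ × ℂ → ℂ}
    (hf : AnalyticOnNhd ℂ f (ball (0 : ℂ) R ×ˢ ball (0 : ℂ) S)) : ∃ a, Rep R S a f := by
  refine ⟨fun k j => ((j.factorial : ℂ)⁻¹ * iteratedDeriv j (fun y => (d1^[k] f) (0, y)) 0) *
    (k.factorial : ℂ)⁻¹, fun x y hx hy => ?_⟩
  obtain ⟨r, hr1, hr2⟩ := exists_between hx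
  obtain ⟨s, hs1, hs2⟩ := exists_between hy
  have hr0 : 0 < r := (norm_nonneg _).trans_lt hr1
  have hs0 : 0 < s := (norm_nonneg _).trans_lt hs1
  have h0R : (0 : ℂ) ∈ ball (0 : ℂ) R := mem_ball_self (hr0.trans hr2)
  have hsub : closedBall (0 : ℂ) r ×ˢ closedBall (0 : ℂ) s ⊆ ball (0 : ℂ) R ×ˢ ball (0 : ℂ) S :=
    Set.prod_mono (closedBall_subset_ball hr2) (closedBall_subset_ball hs2)
  obtain ⟨M, hM⟩ := ((isCompact_closedBall (0 : ℂ) r).prod
    (isCompact_closedBall (0 : ℂ) s)).exists_bound_of_continuousOn (hf.continuousOn.mono hsub)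
  have hslice1 : ∀ v ∈ ball (0 : ℂ) S, DifferentiableOn ℂ (fun z => f (z, v)) (ball (0 : ℂ) R) := by
    intro v hv z hz
    exact ((hf (z, v) ⟨hz, hv⟩).differentiableAt.comp z
      (differentiableAt_id.prodMk (differentiableAt_const v))).differentiableWithinAt
  have hslice2 : ∀ k, DifferentiableOn ℂ (fun v => (d1^[k] f) (0, v)) (ball (0 : ℂ) S) := by
    intro k v hv
    exact ((analytic_iter hf k (0, v) ⟨h0R, hv⟩).differentiableAt.comp v
      ((differentiableAt_const (0 : ℂ)).prodMk differentiableAt_id)).differentiableWithinAt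
  have hb1 : ∀ k, ∀ v ∈ sphere (0 : ℂ) s, ‖(d1^[k] f) (0, v)‖ ≤ k.factorial * M / r ^ k := by
    intro k v hv
    have hv' := sphere_subset_closedBall hv
    rw [← iteratedDeriv_slice hf k (closedBall_subset_ball hs2 hv') 0 h0R]
    refine Complex.norm_iteratedDeriv_le_of_forall_mem_sphere_norm_le k hr0
      ((hslice1 v (closedBall_subset_ball hs2 hv')).diffContOnCl_ball
        (closedBall_subset_ball hr2)) fun z hz => hM (z, v) ⟨sphere_subset_closedBall hz, hv'⟩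
  have hb2 : ∀ k j, ‖iteratedDeriv j (fun v => (d1^[k] f) (0, v)) 0‖ ≤
      j.factorial * (k.factorial * M / r ^ k) / s ^ j := fun k j =>
    Complex.norm_iteratedDeriv_le_of_forall_mem_sphere_norm_le j hs0
      ((hslice2 k).diffContOnCl_ball (closedBall_subset_ball hs2)) (hb1 k)
  have hsum : Summable fun i : ℕ × ℕ => ((i.2.factorial : ℂ)⁻¹ *
      iteratedDeriv i.2 (fun y => (d1^[i.1] f) (0, y)) 0) * (i.1.factorial : ℂ)⁻¹ * x ^ i.1 *
      y ^ i.2 := by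
    have g1 : Summable fun k : ℕ => (‖x‖ / r) ^ k :=
      summable_geometric_of_lt_one (by positivity) ((div_lt_one hr0).mpr hr1)
    have g2 : Summable fun k : ℕ => (‖y‖ / s) ^ k :=
      summable_geometric_of_lt_one (by positivity) ((div_lt_one hs0).mpr hs1)
    have g3 := (Summable.mul_of_nonneg g1 g2 (fun k => by positivity) (fun k => by positivity)).mul_left M
    refine Summable.of_norm_bounded g3 fun i => ?_
    have e1 : (0 : ℝ) < i.1.factorial := by exact_mod_cast i.1.factorial_pos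
    have e2 : (0 : ℝ) < i.2.factorial := by exact_mod_cast i.2.factorial_pos
    simp only [norm_mul, norm_inv, norm_pow, Complex.norm_natCast]
    calc (i.2.factorial : ℝ)⁻¹ * ‖iteratedDeriv i.2 (fun y => (d1^[i.1] f) (0, y)) 0‖ *
          (i.1.factorial : ℝ)⁻¹ * ‖x‖ ^ i.1 * ‖y‖ ^ i.2
        ≤ (i.2.factorial : ℝ)⁻¹ * (i.2.factorial * (i.1.factorial * M / r ^ i.1) / s ^ i.2) *
          (i.1.factorial : ℝ)⁻¹ * ‖x‖ ^ i.1 * ‖y‖ ^ i.2 := by
          gcongr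
          exact hb2 _ _
      _ = _ := by
          rw [div_pow, div_pow]
          field_simp
  have hy' : y ∈ ball (0 : ℂ) S := by simpa using hy
  have hfib : ∀ k : ℕ, HasSum (fun j : ℕ => ((j.factorial : ℂ)⁻¹ *
      iteratedDeriv j (fun y => (d1^[k] f) (0, y)) 0) * (k.factorial : ℂ)⁻¹ * x ^ k * y ^ j)
      ((k.factorial : ℂ)⁻¹ • (x - 0) ^ k • iteratedDeriv k (fun z => f (z, y)) 0) := by
    intro k
    have h1 := (Complex.hasSum_taylorSeries_on_ball (hslice2 k) hy').mul_left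
      ((k.factorial : ℂ)⁻¹ * x ^ k)
    rw [iteratedDeriv_slice hf k hy' 0 h0R, smul_eq_mul, smul_eq_mul, sub_zero, ← mul_assoc]
    refine h1.congr_fun fun j => ?_
    simp only [smul_eq_mul, sub_zero]
    ring
  have h2 := hsum.hasSum.prod_fiberwise hfib
  have h3 := Complex.hasSum_taylorSeries_on_ball (hslice1 y hy') (z := x) (by simpa using hx)
  rw [← h2.unique h3]
  exact hsum.hasSum

end Pool.Agent.Lib.MP_814f17_an
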