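import Mathlib
import Pool.Agent.Lib.MP_814f17_an.Series
import Pool.Agent.Lib.MP_814f17_an.Limit

/-!
The second-order limit of the remainder and its kernel.
-/

set_option autoImplicit false

namespace Pool.Agent.Lib.MP_814f17_an

open Finset Filter Topology

lemma coeff_zero_one {c : ℕ → ℂ} {r : ℝ} (hr : 0 < r)
    (h : ∀ z : ℂ, ‖z‖ < r → HasSum (fun n => c n * z ^ n) 0) (n : ℕ) : c n = 0 := by
  have h1 : HasFPowerSeriesAt (0 : ℂ → ℂ) (FormalMultilinearSeries.ofScalars ℂ c) 0 := by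
    rw [hasFPowerSeriesAt_iff]
    filter_upwards [Metric.ball_mem_nhds (0 : ℂ) hr] with z hz
    refine (h z (by simpa using hz)).congr_fun fun n => ?_
    simp [mul_comm]
  have h2 := congrArg (fun p : FormalMultilinearSeries ℂ ℂ ℂ => p.coeff n) h1.eq_zero
  simp only [FormalMultilinearSeries.coeff_ofScalars] at h2
  exact h2

lemma coeff_zero_two {b : ℕ → ℕ → ℂ} {r : ℝ} (hr : 0 < r)
    (h : ∀ x y : ℂ, ‖x‖ < r → ‖y‖ < r →
      HasSum (fun i : ℕ × ℕ => b i.1 i.2 * x ^ i.1 * y ^ i.2) 0) (p q : ℕ) : b p q = 0 := by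
  have h0 : ‖((r / 2 : ℝ) : ℂ)‖ < r := by
    rw [Complex.norm_real, Real.norm_of_nonneg (by linarith)]; linarith
  have h0' : ((r / 2 : ℝ) : ℂ) ≠ 0 := by exact_mod_cast (by linarith : r / 2 ≠ 0)
  have hs : ∀ y : ℂ, ‖y‖ < r → ∀ k, Summable fun j => b k j * y ^ j := by
    intro y hy k
    refine (((h _ y h0 hy).summable.prod_factor k).mul_right (((r / 2 : ℝ) : ℂ) ^ k)⁻¹).congr
      fun j => ?_
    field_simp
  refine coeff_zero_one (c := fun j => b p j) hr (fun y hy => ?_) q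
  have h1 : ∑' j, b p j * y ^ j = 0 := by
    refine coeff_zero_one (c := fun k => ∑' j, b k j * y ^ j) hr (fun x hx => ?_) p
    refine (h x y hx hy).prod_fiberwise fun k => ?_
    refine ((hs y hy k).hasSum.mul_right (x ^ k)).congr_fun fun j => ?_
    ring
  rw [← h1]
  exact (hs y hy p).hasSum

lemma c2_le {m : ℕ} {T : ℝ} (h : (m : ℝ) ≤ T) : c2 m ≤ T ^ 2 := by
  have h0 : (0 : ℝ) ≤ m := by positivity
  unfold c2
  nlinarith

lemma c2c2_le {m l : ℕ} {T : ℝ} (h : (m : ℝ) ≤ T) (h' : (l : ℝ) ≤ T) : |c2 m * c2 l| ≤ T ^ 4 := by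
  rw [abs_of_nonneg (mul_nonneg (c2_nonneg _) (c2_nonneg _)), show T ^ 4 = T ^ 2 * T ^ 2 by ring]
  exact mul_le_mul (c2_le h) (c2_le h') (c2_nonneg _) (by positivity)

lemma e2_le {m : ℕ} {T : ℝ} (h : (m : ℝ) ≤ T) : |e2 m| ≤ T ^ 4 := by
  refine le_trans ?_ (pow_le_pow_left₀ (by positivity) h 4)
  rcases m with _ | _ | m
  · simp [e2]
  · simp [e2]
  · have h0 : (0 : ℝ) ≤ m := by positivity
    have h1 : e2 (m + 1 + 1) = ((m : ℝ) + 2) * (m + 1) * m * (3 * m + 5) / 24 := by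
      unfold e2; push_cast; ring
    rw [h1, abs_of_nonneg (by positivity)]
    push_cast
    nlinarith [pow_nonneg h0 2, pow_nonneg h0 3, pow_nonneg h0 4]

lemma s2_le {m : ℕ} {T : ℝ} (h : (m : ℝ) ≤ T) : |s2 m| ≤ T ^ 4 := by
  refine le_trans ?_ (pow_le_pow_left₀ (by positivity) h 4)
  rcases m with _ | _ | m
  · simp [s2]
  · simp [s2]
  · have h0 : (0 : ℝ) ≤ m := by positivity
    have h1 : s2 (m + 1 + 1) = ((m : ℝ) + 2) * (m + 1) * m * (3 * m + 1) / 24 := by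
      unfold s2; push_cast; ring
    rw [h1, abs_of_nonneg (by positivity)]
    push_cast
    nlinarith [pow_nonneg h0 2, pow_nonneg h0 3, pow_nonneg h0 4]

lemma piece {a : ℕ → ℕ → ℂ} (hm : Summable (maj a 1 1)) (w : ℕ → ℕ → ℝ) (d e : ℕ)
    (hw : ∀ k j : ℕ, |w k j| ≤ (((k : ℝ) + 1) * ((j : ℝ) + 1)) ^ 4)
    (hz : ∀ k j, k < d ∨ j < e → w k j = 0) {x y : ℂ} (hx : ‖x‖ ≤ 1) (hy : ‖y‖ ≤ 1) :
    ∃ s : ℂ, HasSum (fun i : ℕ × ℕ => a i.1 i.2 * ((w i.1 i.2 : ℂ) * (x ^ (i.1 - d) * y ^ (i.2 - e)))) s ∧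
      HasSum (fun i : ℕ × ℕ => (w (i.1 + d) (i.2 + e) : ℂ) * a (i.1 + d) (i.2 + e) * x ^ i.1 *
        y ^ i.2) s := by
  have hs : Summable fun i : ℕ × ℕ =>
      a i.1 i.2 * ((w i.1 i.2 : ℂ) * (x ^ (i.1 - d) * y ^ (i.2 - e))) := by
    refine Summable.of_norm_bounded hm fun i => ?_
    rw [norm_mul, norm_mul, norm_mul, norm_pow, norm_pow, Complex.norm_real, Real.norm_eq_abs, maj]
    refine mul_le_mul_of_nonneg_left ?_ (norm_nonneg _)
    have h1 : ‖x‖ ^ (i.1 - d) * ‖y‖ ^ (i.2 - e) ≤ 1 :=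
      mul_le_one₀ (pow_le_one₀ (norm_nonneg _) hx) (by positivity) (pow_le_one₀ (norm_nonneg _) hy)
    refine (mul_le_of_le_one_right (abs_nonneg _) h1).trans ((hw _ _).trans (le_of_eq ?_))
    ring
  refine ⟨_, hs.hasSum, ?_⟩
  have hinj : Function.Injective fun i : ℕ × ℕ => (i.1 + d, i.2 + e) := by
    intro i i' h
    simp only [Prod.mk.injEq, add_left_inj] at h
    exact Prod.ext h.1 h.2
  have h1 := (hinj.hasSum_iff (f := fun i : ℕ × ℕ =>
      a i.1 i.2 * ((w i.1 i.2 : ℂ) * (x ^ (i.1 - d) * y ^ (i.2 - e)))) (fun i hi => by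
    have : i.1 < d ∨ i.2 < e := by
      by_contra hc
      exact hi ⟨(i.1 - d, i.2 - e), Prod.ext (by simp only; omega) (by simp only; omega)⟩
    simp [hz _ _ this])).mpr hs.hasSum
  refine h1.congr_fun fun i => ?_
  simp only [Function.comp, add_tsub_cancel_right]
  ring

lemma second_hasSum {a : ℕ → ℕ → ℂ} (hm : Summable (maj a 1 1)) {x y : ℂ} (hx : ‖x‖ ≤ 1)
    (hy : ‖y‖ ≤ 1) : HasSum (fun i : ℕ × ℕ => second a i.1 i.2 * x ^ i.1 * y ^ i.2)
      (∑' i : ℕ × ℕ, a i.1 i.2 * gmono i.1 i.2 x y) := by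
  have t0 : ∀ k j : ℕ, ((k + j : ℕ) : ℝ) ≤ ((k : ℝ) + 1) * ((j : ℝ) + 1) := by
    intro k j
    have : (0 : ℝ) ≤ k * j := by positivity
    push_cast; nlinarith
  have t : ∀ k j m : ℕ, m ≤ k + j → (m : ℝ) ≤ ((k : ℝ) + 1) * ((j : ℝ) + 1) := fun k j m h =>
    le_trans (by exact_mod_cast h) (t0 k j)
  have z1 : ∀ k : ℕ, k < 1 → c2 k = 0 := fun k hk => c2_of_pred (by omega)
  have z2 : ∀ k : ℕ, k < 2 → s2 k = 0 := by
    intro k hk
    have : k = 0 ∨ k = 1 := by omega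
    rcases this with rfl | rfl <;> simp [s2]
  obtain ⟨s1, a1, b1⟩ := piece hm (fun k j => e2 (k + j)) 0 0 (fun k j => e2_le (t0 k j))
    (fun k j h => by omega) hx hy
  obtain ⟨s2', a2, b2⟩ := piece hm (fun k j => c2 (k + j - 1) * c2 k) 1 0
    (fun k j => c2c2_le (t k j _ (by omega)) (t k j _ (by omega)))
    (fun k j h => by rw [z1 k (by omega), mul_zero]) hx hy
  obtain ⟨s3, a3, b3⟩ := piece hm (fun k j => c2 (k + j - 1) * c2 j) 0 1
    (fun k j => c2c2_le (t k j _ (by omega)) (t k j _ (by omega)))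
    (fun k j h => by rw [z1 j (by omega), mul_zero]) hx hy
  obtain ⟨s4, a4, b4⟩ := piece hm (fun k _ => s2 k) 2 0 (fun k j => s2_le (t k j _ (by omega)))
    (fun k j h => z2 k (by omega)) hx hy
  obtain ⟨s5, a5, b5⟩ := piece hm (fun k j => c2 k * c2 j) 1 1
    (fun k j => c2c2_le (t k j _ (by omega)) (t k j _ (by omega)))
    (fun k j h => by rcases h with h | h <;> simp [z1 _ h]) hx hy
  obtain ⟨s6, a6, b6⟩ := piece hm (fun _ j => s2 j) 0 2 (fun k j => s2_le (t k j _ (by omega)))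
    (fun k j h => z2 j (by omega)) hx hy
  have hA : HasSum (fun i : ℕ × ℕ => a i.1 i.2 * gmono i.1 i.2 x y)
      (s1 - (s2' + s3) + (s4 + s5 + s6)) := by
    refine ((a1.sub (a2.add a3)).add ((a4.add a5).add a6)).congr_fun fun i => ?_
    rw [gmono]
    ring
  rw [hA.tsum_eq]
  refine ((b1.sub (b2.add b3)).add ((b4.add b5).add b6)).congr_fun fun i => ?_
  have e1 : i.1 + 1 + i.2 - 1 = i.1 + i.2 := by omega
  have e2' : i.1 + (i.2 + 1) - 1 = i.1 + i.2 := by omega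
  simp only [second, low, add_zero, e1, e2']
  push_cast
  ring

variable {R S : ℝ} {a : ℕ → ℕ → ℂ} {f : ℂ × ℂ → ℂ}

theorem Rep.tendsto (h : Rep R S a f) (hR : 1 < R) (hS : 1 < S) {x y : ℂ} (hx : ‖x‖ < R)
    (hy : ‖y‖ < S) : Tendsto (fun n : ℕ => (n : ℂ) ^ 2 *
      (Pool.Agent.Lib.MP_814f17_an.bop n (fun p q => f ((p : ℂ) / n, (q : ℂ) / n)) x y - f (x, y) -
        (1 / (2 * (n : ℂ))) * (x * (1 - x) * deriv (deriv fun z => f (z, y)) x
          - 2 * x * y * deriv (fun z => deriv (fun w => f (z, w)) y) x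
          + y * (1 - y) * deriv (deriv fun z => f (x, z)) y))) atTop
      (𝓝 (∑' i : ℕ × ℕ, a i.1 i.2 * gmono i.1 i.2 x y)) := by
  obtain ⟨r, hr1, hr2⟩ := exists_between (max_lt hR hx)
  obtain ⟨s, hs1, hs2⟩ := exists_between (max_lt hS hy)
  have hr : 1 ≤ r := ((le_max_left _ _).trans_lt hr1).le
  have hs : 1 ≤ s := ((le_max_left _ _).trans_lt hs1).le
  have hx' := (le_max_right _ _).trans_lt hr1
  have hy' := (le_max_right _ _).trans_lt hs1
  have hm := h.summable_maj (by linarith) (by linarith) hr2 hs2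
  have h0 := tendsto_tsum_of_dominated_convergence hm
    (fun i : ℕ × ℕ => (mono_tendsto i.1 i.2 x y).const_mul (a i.1 i.2)) (by
      filter_upwards [eventually_ge_atTop 1] with n hn i
      have hn0 : (0 : ℝ) < (n : ℝ) ^ 2 := by positivity
      rw [norm_mul, norm_mul, norm_pow, Complex.norm_natCast, maj]
      refine mul_le_mul_of_nonneg_left ?_ (norm_nonneg _)
      rw [mul_comm, ← le_div_iff₀ hn0]
      exact mono_bound hn i.1 i.2 hr hs hx'.le hy'.le)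
  refine h0.congr fun n => ?_
  have h1 := (((h.bop hR hS n x y).sub (h x y hx hy)).sub
    (((((h.d11 hr hs hr2 hs2 hx' hy').mul_left (x * (1 - x))).sub
      ((h.d12 hr hs hr2 hs2 hx' hy').mul_left (2 * x * y))).add
      ((h.d22 hr hs hr2 hs2 hx' hy').mul_left (y * (1 - y)))).mul_left
        (1 / (2 * (n : ℂ))))).mul_left ((n : ℂ) ^ 2)
  rw [← h1.tsum_eq]
  refine tsum_congr fun i => ?_
  ring

theorem Rep.quadratic (h : Rep R S a f) (hR : 1 < R) (hS : 1 < S) {δ : ℝ} (hδ : 0 < δ) (hδ1 : δ ≤ 1)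
    (h0 : ∀ x y : ℂ, ‖x‖ < δ → ‖y‖ < δ → ∑' i : ℕ × ℕ, a i.1 i.2 * gmono i.1 i.2 x y = 0)
    (x y : ℂ) (hx : ‖x‖ < R) (hy : ‖y‖ < S) :
    f (x, y) = a 0 0 + a 1 0 * x + a 0 1 * y + a 2 0 * x ^ 2 + a 1 1 * x * y + a 0 2 * y ^ 2 := by
  have hm := h.summable_maj one_pos one_pos hR hS
  have h1 : ∀ p q, second a p q = 0 := coeff_zero_two hδ fun x y hx hy => by
    rw [← h0 x y hx hy]
    exact second_hasSum hm (hx.le.trans hδ1) (hy.le.trans hδ1)
  obtain ⟨t, ht1, ht2⟩ := exists_between (lt_min hR hS)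
  have ht0 : 0 < t := by linarith
  have hn : ‖(t : ℂ)‖ = t := by rw [Complex.norm_real, Real.norm_of_nonneg ht0.le]
  have h2 := summable_norm_iff.mpr (h t t (by rw [hn]; exact ht2.trans_le (min_le_left _ _))
    (by rw [hn]; exact ht2.trans_le (min_le_right _ _))).summable
  have h3 := kernel h1 (u := t⁻¹) (C := ∑' i : ℕ × ℕ, ‖a i.1 i.2 * (t : ℂ) ^ i.1 * (t : ℂ) ^ i.2‖)
    (by positivity) (inv_lt_one_of_one_lt₀ ht1) (fun p q => by
      have h4 := h2.le_tsum (p, q) (fun _ _ => norm_nonneg _)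
      rw [norm_mul, norm_mul, norm_pow, norm_pow, hn, mul_assoc, ← pow_add] at h4
      rw [inv_pow, ← div_eq_mul_inv, le_div_iff₀ (by positivity)]
      exact h4)
  have h4 : HasSum (fun i : ℕ × ℕ => a i.1 i.2 * x ^ i.1 * y ^ i.2)
      (∑ i ∈ ({(0, 0), (1, 0), (0, 1), (2, 0), (1, 1), (0, 2)} : Finset (ℕ × ℕ)),
        a i.1 i.2 * x ^ i.1 * y ^ i.2) := by
    refine hasSum_sum_of_ne_finset_zero fun i hi => ?_
    obtain ⟨p, q⟩ := i
    simp only [Finset.mem_insert, Finset.mem_singleton, Prod.mk.injEq] at hi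
    rw [h3 p q (by omega)]
    simp
  rw [(h x y hx hy).unique h4]
  simp [add_assoc]

end Pool.Agent.Lib.MP_814f17_an
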